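import Pool.Agent.MP_4f0cf1_nt.Zeta

set_option autoImplicit false
open Finset NumberField Module Filter Topology

namespace Pool.Agent.MP_4f0cf1_nt

section
variable {p n : ℕ} [Fact p.Prime]

/-- `i cot(π y / p)` -/
noncomputable def cc (p : ℕ) [Fact p.Prime] (y : ZMod p) : ℂ := (1 + ee p y) / (1 - ee p y)

lemma ee_ne_one {y : ZMod p} (hy : y ≠ 0) : ee p y ≠ 1 := by
  intro h
  apply hy
  have h2 : ee p y = ee p 0 := by rw [h, AddChar.map_zero_eq_one]
  exact ZMod.injective_stdAddChar h2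

lemma two_ne (hp2 : p ≠ 2) : (2 : ZMod p) ≠ 0 := by
  have := ZMod.prime_ne_zero p 2 hp2
  exact_mod_cast this

lemma ee_pow_p (y : ZMod p) : ee p y ^ p = 1 := by
  rw [← AddChar.map_nsmul_eq_pow, nsmul_eq_mul, ZMod.natCast_self, zero_mul,
    AddChar.map_zero_eq_one]

lemma geo (hpn : p = 2 * n + 1) (hp2 : p ≠ 2) {y : ZMod p} (hy : y ≠ 0) :
    ∑ j : Fin n, ee p (2 * y * uu p n j) = -1 / 2 - cc p y / 2 + cc p (2 * y) := by
  set w := ee p y with hw
  have hw2 : ee p (2 * y) = w ^ 2 := by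
    rw [hw, ← AddChar.map_nsmul_eq_pow, nsmul_eq_mul]; norm_num
  have h1 : w ≠ 1 := ee_ne_one hy
  have h2 : w ^ 2 ≠ 1 := by rw [← hw2]; exact ee_ne_one (mul_ne_zero (two_ne hp2) hy)
  have h3 : 1 + w ≠ 0 := by
    intro h
    apply h2
    have : w = -1 := by linear_combination h
    rw [this]; norm_num
  have h4 : 1 - w ≠ 0 := by
    intro h
    apply h1
    linear_combination -h
  have h5 : 1 - w ^ 2 ≠ 0 := by
    intro h
    apply h2
    linear_combination -h
  have h6 : w * (w ^ 2) ^ n = 1 := by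
    rw [← pow_mul, ← pow_succ', ← hpn]
    exact ee_pow_p y
  have h7 : ∑ j : Fin n, ee p (2 * y * uu p n j) = w ^ 2 * ∑ j ∈ range n, (w ^ 2) ^ j := by
    rw [← Fin.sum_univ_eq_sum_range (fun i => (w ^ 2) ^ i), Finset.mul_sum]
    apply Finset.sum_congr rfl
    intro j _
    rw [← pow_succ', ← hw2, ← AddChar.map_nsmul_eq_pow]
    congr 1
    rw [nsmul_eq_mul]
    unfold uu
    push_cast
    ring
  rw [h7, geom_sum_eq h2]
  unfold cc
  rw [hw2, ← hw]
  have h8 : w ^ 2 - 1 ≠ 0 := sub_ne_zero.mpr h2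
  have h9 : w ^ 2 * (((w ^ 2) ^ n - 1) / (w ^ 2 - 1)) = -w / (1 + w) := by
    rw [mul_div_assoc', div_eq_div_iff h8 h3]
    linear_combination (w * (1 + w)) * h6
  rw [h9]
  have e : (1 : ℂ) - w ^ 2 = (1 - w) * (1 + w) := by ring
  rw [e]
  field_simp
  ring

lemma tau_S (hpn : p = 2 * n + 1) (hp2 : p ≠ 2) :
    tau p * ∑ j : Fin n, (chi p (uu p n j) : ℂ) =
      (2 - (chi p 2 : ℂ)) / 2 * ∑ y : ZMod p, (chi p y : ℂ) * cc p y := by
  have h2 := two_ne (p := p) hp2
  have hx : ∀ f : ZMod p → ℂ, ∑ x : ZMod p, f x = ∑ y : ZMod p, f (2 * y) := by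
    intro f
    exact (Fintype.sum_equiv (Equiv.mulLeft₀ (2 : ZMod p) h2) _ _ (fun y => rfl)).symm
  have hchi2 : (chi p 2 : ℂ) * (chi p 2 : ℂ) = 1 := by
    have := quadraticChar_sq_one h2
    rw [← sq]
    exact_mod_cast this
  have hs : ∑ x : ZMod p, (chi p x : ℂ) = 0 := by exact_mod_cast sum_chi (p := p) hp2
  have h1 : tau p * ∑ j : Fin n, (chi p (uu p n j) : ℂ) =
      ∑ x : ZMod p, (chi p x : ℂ) * ∑ j : Fin n, ee p (x * uu p n j) := by
    rw [Finset.mul_sum]
    simp_rw [Finset.mul_sum]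
    rw [Finset.sum_comm]
    apply Finset.sum_congr rfl
    intro j _
    rw [tau_shift hp2, mul_comm]
  rw [h1, hx]
  have h3 : ∀ y : ZMod p, (chi p (2 * y) : ℂ) * ∑ j : Fin n, ee p (2 * y * uu p n j) =
      (chi p 2 : ℂ) * (-1 / 2 * (chi p y : ℂ) - 1 / 2 * ((chi p y : ℂ) * cc p y) +
        (chi p y : ℂ) * cc p (2 * y)) := by
    intro y
    rw [map_mul]
    push_cast
    by_cases hy : y = 0
    · subst hy
      rw [MulChar.map_zero]
      simp
    · rw [geo hpn hp2 hy]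
      ring
  rw [Finset.sum_congr rfl (fun y _ => h3 y), ← Finset.mul_sum, Finset.sum_add_distrib,
    Finset.sum_sub_distrib, ← Finset.mul_sum, ← Finset.mul_sum, hs]
  have h4 : ∑ y : ZMod p, (chi p y : ℂ) * cc p (2 * y) =
      (chi p 2 : ℂ) * ∑ y : ZMod p, (chi p y : ℂ) * cc p y := by
    rw [hx (fun y => (chi p y : ℂ) * cc p y), Finset.mul_sum]
    apply Finset.sum_congr rfl
    intro y _
    rw [map_mul]
    push_cast
    linear_combination (-(chi p y : ℂ) * cc p (2 * y)) * hchi2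
  rw [h4]
  linear_combination (∑ y : ZMod p, (chi p y : ℂ) * cc p y) * hchi2

/-- `cc y = i cot(π y/p)` -/
lemma cc_eq {y : ZMod p} (hy : y ≠ 0) :
    cc p y = Complex.I * Complex.cot (Real.pi * ((y.val / p : ℝ) : ℂ)) := by
  have hp0 : (p : ℂ) ≠ 0 := by exact_mod_cast (Fact.out : p.Prime).ne_zero
  set z : ℂ := Real.pi * ((y.val / p : ℝ) : ℂ) with hz
  have h1 : ee p y = Complex.exp (2 * Complex.I * z) := by
    have h := ee_natCast (p := p) y.val
    rw [ZMod.natCast_zmod_val] at h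
    rw [h]
    congr 1
    rw [hz]
    unfold ang
    push_cast
    field_simp
  have h2 : Complex.exp (2 * Complex.I * z) ≠ 1 := by rw [← h1]; exact ee_ne_one hy
  unfold cc
  rw [h1, Complex.cot_eq_exp_ratio]
  have h3 : (1 : ℂ) - Complex.exp (2 * Complex.I * z) ≠ 0 := by
    intro h; apply h2; linear_combination -h
  have hI := Complex.I_ne_zero
  have hI2 := Complex.I_sq
  rw [mul_div_assoc', div_eq_div_iff h3 (mul_ne_zero hI h3)]
  ring

/-- `L(1, χ) = π/(2p) T` with `T = -i C`. -/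
lemma L_one_eq (h4 : p % 4 = 3) :
    Complex.I * DirichletCharacter.LFunction (chiC p) 1 =
      (Real.pi / (2 * p) : ℂ) * ∑ y : ZMod p, (chi p y : ℂ) * cc p y := by
  have hp0 : (p : ℂ) ≠ 0 := by exact_mod_cast (Fact.out : p.Prime).ne_zero
  have hpr : (0 : ℝ) < p := by exact_mod_cast (Fact.out : p.Prime).pos
  have hodd : Function.Odd (fun x : ZMod p => chiC p x) := by
    intro x
    simp only [chiC_apply]
    rw [chi_neg, chi_neg_one_odd h4]
    push_cast
    ring
  have h1 : DirichletCharacter.LFunction (chiC p) 1 =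
      ZMod.LFunction (fun x : ZMod p => chiC p x) 1 := rfl
  rw [h1, ZMod.LFunction_def_odd hodd]
  have h2 : ∀ y : ZMod p, chiC p y * HurwitzZeta.hurwitzZetaOdd (ZMod.toAddCircle y) 1 =
      -Complex.I * (Real.pi / 2 : ℂ) * ((chi p y : ℂ) * cc p y) := by
    intro y
    rw [chiC_apply]
    by_cases hy : y = 0
    · subst hy
      rw [MulChar.map_zero]
      simp
    · have hv : 0 < y.val := by
        rcases Nat.eq_zero_or_pos y.val with h | h
        · exact absurd ((ZMod.val_eq_zero y).mp h) hy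
        · exact h
      have hv1 : (0 : ℝ) < (y.val / p : ℝ) := by
        apply div_pos _ hpr
        exact_mod_cast hv
      have hv2 : (y.val / p : ℝ) < 1 := by
        rw [div_lt_one hpr]
        exact_mod_cast ZMod.val_lt y
      rw [ZMod.toAddCircle_apply, hurwitzZetaOdd_one hv1 hv2, cc_eq hy]
      have hI2 := Complex.I_mul_I
      linear_combination ((Real.pi / 2 : ℂ) * (chi p y : ℂ) *
        Complex.cot (Real.pi * ((y.val / p : ℝ) : ℂ))) * hI2
  rw [Finset.sum_congr rfl (fun y _ => h2 y), ← Finset.mul_sum, Complex.cpow_neg_one]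
  have hI2 := Complex.I_mul_I
  field_simp
  linear_combination (-(∑ y : ZMod p, (chi p y : ℂ) * cc p y)) * hI2

/-- **Dirichlet's class number formula** for `ℚ(√-p)`. -/
theorem class_number_formula {K : Type*} [Field K] [NumberField K] {α : K}
    (D : QData p K α) (hpn : p = 2 * n + 1) :
    ∑ j : Fin n, chi p (uu p n j) = (2 - chi p 2) * (classNumber K : ℤ) := by
  have hp2 := p_ne_two (p := p) hpn
  have hpr : (0 : ℝ) < p := by exact_mod_cast (Fact.out : p.Prime).pos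
  have hq : (0 : ℝ) < Real.sqrt p := Real.sqrt_pos.mpr hpr
  have hqC : ((Real.sqrt p : ℝ) : ℂ) ≠ 0 := by exact_mod_cast hq.ne'
  have hq2 : ((Real.sqrt p : ℝ) : ℂ) * ((Real.sqrt p : ℝ) : ℂ) = p := by
    have := Real.mul_self_sqrt hpr.le
    exact_mod_cast this
  have hp0 : (p : ℂ) ≠ 0 := by exact_mod_cast (Fact.out : p.Prime).ne_zero
  have hpi : (Real.pi : ℂ) ≠ 0 := by exact_mod_cast Real.pi_ne_zero
  have h1 := L_one D
  have h2 := L_one_eq (p := p) D.h4
  have h3 := tau_S (p := p) hpn hp2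
  rw [tau_eq hpn D.h4] at h3
  set C := ∑ y : ZMod p, (chi p y : ℂ) * cc p y with hC
  rw [← h1] at h2
  push_cast at h2
  have h4 : C = 2 * Complex.I * ((Real.sqrt p : ℝ) : ℂ) * (classNumber K : ℂ) := by
    have h5 : (Real.pi : ℂ) / (2 * p) * C = (Real.pi : ℂ) / (2 * p) *
        (2 * Complex.I * ((Real.sqrt p : ℝ) : ℂ) * (classNumber K : ℂ)) := by
      rw [← h2]
      field_simp
      linear_combination (-(classNumber K : ℂ)) * hq2
    exact mul_left_cancel₀ (div_ne_zero hpi (mul_ne_zero two_ne_zero hp0)) h5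
  rw [h4] at h3
  have h5 : (Complex.I * ((Real.sqrt p : ℝ) : ℂ)) * (∑ j : Fin n, (chi p (uu p n j) : ℂ)) =
      (Complex.I * ((Real.sqrt p : ℝ) : ℂ)) * ((2 - (chi p 2 : ℂ)) * (classNumber K : ℂ)) := by
    rw [h3]; ring
  have h6 := mul_left_cancel₀ (mul_ne_zero Complex.I_ne_zero hqC) h5
  exact_mod_cast h6

end

end Pool.Agent.MP_4f0cf1_nt
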