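import Pool.Agent.MP_4f0cf1_nt.Sign

set_option autoImplicit false
open Finset

namespace Pool.Agent.MP_4f0cf1_nt

section
variable {p n : ℕ} [Fact p.Prime]

lemma p_ne_two (hpn : p = 2 * n + 1) : p ≠ 2 := by omega

/-- product of the characters over the half system -/
def XX (p n : ℕ) [Fact p.Prime] : ℤ := ∏ j : Fin n, chi p (uu p n j)

lemma chi_neg_one_odd (h4 : p % 4 = 3) : chi p (-1) = -1 := by
  have hp2 : p ≠ 2 := by omega
  have h := quadraticChar_neg_one (F := ZMod p) (by rwa [ZMod.ringChar_zmod_n])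
  rw [ZMod.card] at h
  rw [h, ZMod.χ₄_nat_three_mod_four h4]

lemma chi_neg_one_even (h4 : p % 4 = 1) : chi p (-1) = 1 := by
  have hp2 : p ≠ 2 := by omega
  have h := quadraticChar_neg_one (F := ZMod p) (by rwa [ZMod.ringChar_zmod_n])
  rw [ZMod.card] at h
  rw [h, ZMod.χ₄_nat_one_mod_four h4]

/-- `Sr` squared -/
lemma Sr_mul_Sr (hpn : p = 2 * n + 1) : Sr p n * Sr p n = (p : ℝ) • (1 : Matrix (Fin n) (Fin n) ℝ) := by
  have h := Sc_mul_Sc (p := p) (n := n) hpn
  rw [Sc_eq] at h
  rw [Matrix.smul_mul, Matrix.mul_smul, smul_smul, Complex.I_mul_I] at h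
  have h2 : (Sr p n).map (fun x : ℝ => (x : ℂ)) * (Sr p n).map (fun x : ℝ => (x : ℂ)) =
      (Sr p n * Sr p n).map (fun x : ℝ => (x : ℂ)) := by
    ext i j
    simp [Matrix.mul_apply, Matrix.map_apply]
  rw [h2] at h
  ext i j
  have h3 := congrFun (congrFun h i) j
  simp only [Matrix.smul_apply, Matrix.map_apply, smul_eq_mul, neg_mul, one_mul, neg_inj] at h3
  simp only [Matrix.smul_apply, smul_eq_mul]
  have h4 : ((1 : Matrix (Fin n) (Fin n) ℂ) i j) = (((1 : Matrix (Fin n) (Fin n) ℝ) i j : ℝ) : ℂ) := by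
    simp only [Matrix.one_apply]; split_ifs <;> simp
  rw [h4] at h3
  exact_mod_cast h3

lemma det_Sr (hpn : p = 2 * n + 1) :
    (Sr p n).det = (-1 : ℝ) ^ (n * (n - 1) / 2) * (Real.sqrt p) ^ n := by
  have hs := det_Sr_sign (p := p) hpn
  have h1 : (Sr p n).det ^ 2 = (p : ℝ) ^ n := by
    rw [sq, ← Matrix.det_mul, Sr_mul_Sr hpn, Matrix.det_smul, Matrix.det_one, Fintype.card_fin,
      mul_one]
  set s : ℝ := (-1 : ℝ) ^ (n * (n - 1) / 2) with hs'
  have h2 : s * s = 1 := by
    rw [hs', ← mul_pow]; norm_num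
  have h3 : (s * (Sr p n).det) ^ 2 = (Real.sqrt p ^ n) ^ 2 := by
    rw [mul_pow, sq s, h2, one_mul, h1, ← pow_mul, mul_comm n 2, pow_mul, Real.sq_sqrt (by positivity)]
  have h4 : s * (Sr p n).det = Real.sqrt p ^ n := by
    have h5 : (0 : ℝ) ≤ Real.sqrt p ^ n := by positivity
    exact (sq_eq_sq₀ hs.le h5).mp h3
  calc (Sr p n).det = (s * s) * (Sr p n).det := by rw [h2, one_mul]
    _ = s * (s * (Sr p n).det) := by ring
    _ = _ := by rw [h4]

lemma det_Cr (hpn : p = 2 * n + 1) (hn : Odd n) :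
    (Cr p n).det = (-1 : ℝ) ^ ((n + 1) * n / 2) * (p : ℝ) ^ ((n - 1) / 2) := by
  have hn1 : 1 ≤ n := by obtain ⟨m, hm⟩ := hn; omega
  have hs := det_Cr_sign (p := p) hpn
  have h1 : (Cr p n).det ^ 2 = (p : ℝ) ^ (n - 1) := by
    have h := det_Cc_sq (p := p) hpn hn1
    rw [Cc_eq] at h
    have h2 : ((Cr p n).map (fun x : ℝ => (x : ℂ))).det = ((Cr p n).det : ℂ) := by
      have := (RingHom.map_det Complex.ofRealHom (Cr p n)).symm
      exact this
    rw [h2] at h
    exact_mod_cast h
  set s : ℝ := (-1 : ℝ) ^ ((n + 1) * n / 2) with hs'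
  have h2 : s * s = 1 := by
    rw [hs', ← mul_pow]; norm_num
  have h3 : (s * (Cr p n).det) ^ 2 = ((p : ℝ) ^ ((n - 1) / 2)) ^ 2 := by
    rw [mul_pow, sq s, h2, one_mul, h1, ← pow_mul]
    congr 1
    obtain ⟨m, hm⟩ := hn
    omega
  have h4 : s * (Cr p n).det = (p : ℝ) ^ ((n - 1) / 2) := by
    have h5 : (0 : ℝ) ≤ (p : ℝ) ^ ((n - 1) / 2) := by positivity
    exact (sq_eq_sq₀ hs.le h5).mp h3
  calc (Cr p n).det = (s * s) * (Cr p n).det := by rw [h2, one_mul]
    _ = s * (s * (Cr p n).det) := by ring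
    _ = _ := by rw [h4]

/-- The trace of `Sr` is the imaginary part of the Gauss sum. -/
lemma tau_eq_trace (hpn : p = 2 * n + 1) (h4 : p % 4 = 3) :
    tau p = Complex.I * ((Sr p n).trace : ℂ) := by
  have hp2 := p_ne_two (p := p) hpn
  -- sum over squares
  have h1 : ∑ x : ZMod p, ee p (x * x) = tau p := by
    have h2 : ∀ a : ZMod p, ((univ.filter (fun x : ZMod p => x * x = a)).card : ℂ) =
        1 + (chi p a : ℂ) := by
      intro a
      have h3 := quadraticChar_card_sqrts (F := ZMod p) (by rwa [ZMod.ringChar_zmod_n]) a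
      have h4 : ((univ.filter (fun x : ZMod p => x * x = a)).card : ℤ) = chi p a + 1 := by
        rw [← h3]
        congr 2
        ext x
        simp [sq]
      have h5 : (((univ.filter (fun x : ZMod p => x * x = a)).card : ℤ) : ℂ) =
        ((chi p a + 1 : ℤ) : ℂ) := by rw [h4]
      push_cast at h5
      rw [h5]; ring
    calc ∑ x : ZMod p, ee p (x * x)
        = ∑ a : ZMod p, ∑ x ∈ univ.filter (fun x : ZMod p => x * x = a), ee p (x * x) :=
          (Finset.sum_fiberwise _ _ _).symm
      _ = ∑ a : ZMod p, (1 + (chi p a : ℂ)) * ee p a := by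
          apply Finset.sum_congr rfl
          intro a _
          rw [← h2 a, ← nsmul_eq_mul, ← Finset.sum_const]
          apply Finset.sum_congr rfl
          intro x hx
          rw [(Finset.mem_filter.mp hx).2]
      _ = ∑ a : ZMod p, ee p a + ∑ a : ZMod p, (chi p a : ℂ) * ee p a := by
          rw [← Finset.sum_add_distrib]
          apply Finset.sum_congr rfl
          intro a _
          ring
      _ = tau p := by
          have h5 := sum_ee (p := p) 1
          rw [if_neg one_ne_zero] at h5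
          simp only [mul_one] at h5
          rw [h5, zero_add]
          rfl
  have h2 := half_sum' hpn (fun x : ZMod p => ee p (x * x))
  simp only [neg_mul_neg, mul_zero, AddChar.map_zero_eq_one] at h2
  rw [h1] at h2
  -- conjugate Gauss sum
  have h3 := tau_shift (p := p) hp2 (-1)
  rw [chi_neg_one_odd h4] at h3
  have h5 : ∑ x : ZMod p, ee p (-(x * x)) = -tau p := by
    have h6 : ∀ a : ZMod p, ((univ.filter (fun x : ZMod p => x * x = a)).card : ℂ) =
        1 + (chi p a : ℂ) := by
      intro a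
      have h3 := quadraticChar_card_sqrts (F := ZMod p) (by rwa [ZMod.ringChar_zmod_n]) a
      have h4 : ((univ.filter (fun x : ZMod p => x * x = a)).card : ℤ) = chi p a + 1 := by
        rw [← h3]
        congr 2
        ext x
        simp [sq]
      have h5 : (((univ.filter (fun x : ZMod p => x * x = a)).card : ℤ) : ℂ) =
        ((chi p a + 1 : ℤ) : ℂ) := by rw [h4]
      push_cast at h5
      rw [h5]; ring
    calc ∑ x : ZMod p, ee p (-(x * x))
        = ∑ a : ZMod p, ∑ x ∈ univ.filter (fun x : ZMod p => x * x = a), ee p (-(x * x)) :=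
          (Finset.sum_fiberwise _ _ _).symm
      _ = ∑ a : ZMod p, (1 + (chi p a : ℂ)) * ee p (-a) := by
          apply Finset.sum_congr rfl
          intro a _
          rw [← h6 a, ← nsmul_eq_mul, ← Finset.sum_const]
          apply Finset.sum_congr rfl
          intro x hx
          rw [(Finset.mem_filter.mp hx).2]
      _ = ∑ a : ZMod p, ee p (a * (-1)) + ∑ a : ZMod p, (chi p a : ℂ) * ee p (a * (-1)) := by
          rw [← Finset.sum_add_distrib]
          apply Finset.sum_congr rfl
          intro a _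
          rw [mul_neg_one]
          ring
      _ = -tau p := by
          have h5 := sum_ee (p := p) (-1)
          rw [if_neg (by simp)] at h5
          rw [h5, zero_add, h3]
          push_cast
          ring
  have h6 := half_sum' hpn (fun x : ZMod p => ee p (-(x * x)))
  simp only [neg_mul_neg, mul_zero, neg_zero, AddChar.map_zero_eq_one] at h6
  rw [h5] at h6
  -- trace
  have h7 : Complex.I * ((Sr p n).trace : ℂ) = (Sc p n).trace := by
    rw [Sc_eq, Matrix.trace_smul, smul_eq_mul]
    congr 1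
    simp [Matrix.trace]
  rw [h7]
  have h8 : (Sc p n).trace = ∑ t : Fin n, ee p (uu p n t * uu p n t) -
      ∑ t : Fin n, ee p (-(uu p n t * uu p n t)) := by
    rw [← Finset.sum_sub_distrib]
    rfl
  rw [Finset.sum_add_distrib] at h2 h6
  rw [h8]
  linear_combination (-1/2) * h2 + (1/2) * h6

lemma Sr_isHermitian : (Sr p n).IsHermitian := by
  ext j k
  simp only [Sr, Matrix.conjTranspose_apply, Matrix.of_apply, star_trivial]
  unfold ang
  push_cast
  ring_nf

/-- Sign of the quadratic Gauss sum for `p ≡ 3 mod 4`. -/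
lemma tau_eq (hpn : p = 2 * n + 1) (h4 : p % 4 = 3) :
    tau p = Complex.I * (Real.sqrt p : ℂ) := by
  have hp2 := p_ne_two (p := p) hpn
  have hp0 : (0 : ℝ) < p := by exact_mod_cast (Fact.out : p.Prime).pos
  have hn : n % 2 = 1 := by omega
  rw [tau_eq_trace hpn h4]
  congr 1
  norm_cast
  set t := (Sr p n).trace with ht
  have h1 : t ^ 2 = p := by
    have h := tau_sq (p := p) hp2
    rw [tau_eq_trace hpn h4, chi_neg_one_odd h4, mul_pow, Complex.I_sq] at h
    have h' : ((t ^ 2 : ℝ) : ℂ) = ((p : ℝ) : ℂ) := by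
      push_cast
      push_cast at h
      linear_combination -h
    exact_mod_cast h'
  have hS := Sr_isHermitian (p := p) (n := n)
  set q := Real.sqrt p with hq
  have hq0 : 0 < q := Real.sqrt_pos.mpr hp0
  have hq2 : q ^ 2 = p := Real.sq_sqrt hp0.le
  -- eigenvalues
  have h2 : ∀ i, (hS.eigenvalues i) ^ 2 = p := by
    intro i
    have h3 := hS.mulVec_eigenvectorBasis i
    have h5 : (Sr p n * Sr p n).mulVec (hS.eigenvectorBasis i) =
      (hS.eigenvalues i * hS.eigenvalues i) • (⇑(hS.eigenvectorBasis i)) := by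
      rw [← Matrix.mulVec_mulVec, h3, Matrix.mulVec_smul, h3, smul_smul]
    rw [Sr_mul_Sr hpn, Matrix.smul_mulVec, Matrix.one_mulVec] at h5
    have h6 : (⇑(hS.eigenvectorBasis i) : Fin n → ℝ) ≠ 0 := by
      intro h
      have := hS.eigenvectorBasis.toBasis.ne_zero i
      apply this
      rw [OrthonormalBasis.coe_toBasis]
      ext j
      exact congrFun h j
    have h7 : ((p : ℝ) - hS.eigenvalues i * hS.eigenvalues i) • (⇑(hS.eigenvectorBasis i) : Fin n → ℝ) = 0 := by
      rw [sub_smul, h5, sub_self]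
    rcases smul_eq_zero.mp h7 with h8 | h8
    · rw [sq]; linarith
    · exact absurd h8 h6
  have h3 : ∀ i, hS.eigenvalues i = q ∨ hS.eigenvalues i = -q := by
    intro i
    have := h2 i
    rw [← hq2] at this
    exact sq_eq_sq_iff_eq_or_eq_neg.mp this
  set Nn := (univ.filter (fun i => hS.eigenvalues i = -q)).card with hNn
  have hqq : q ≠ -q := by linarith
  have h5 : (Sr p n).det = (-1) ^ Nn * q ^ n := by
    rw [hS.det_eq_prod_eigenvalues]
    have h6 : ∀ i, (RCLike.ofReal (hS.eigenvalues i) : ℝ) = (if hS.eigenvalues i = -q then (-1 : ℝ) else 1) * q := by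
      intro i
      rcases h3 i with h | h
      · rw [h, if_neg hqq]; simp
      · rw [h, if_pos rfl]; simp
    rw [Finset.prod_congr rfl (fun i _ => h6 i), Finset.prod_mul_distrib, Finset.prod_const,
      Finset.card_univ, Fintype.card_fin, Finset.prod_ite]
    simp [hNn]
  have h6 : t = (n - 2 * Nn) * q := by
    rw [ht, hS.trace_eq_sum_eigenvalues]
    have h6 : ∀ i, (RCLike.ofReal (hS.eigenvalues i) : ℝ) = (1 - 2 * (if hS.eigenvalues i = -q then (1 : ℝ) else 0)) * q := by
      intro i
      rcases h3 i with h | h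
      · rw [h, if_neg hqq]; simp
      · rw [h, if_pos rfl]; simp; ring
    rw [Finset.sum_congr rfl (fun i _ => h6 i), ← Finset.sum_mul, Finset.sum_sub_distrib,
      Finset.sum_const, ← Finset.mul_sum, Finset.card_univ, Fintype.card_fin, Finset.sum_boole]
    simp [hNn]
  rw [det_Sr hpn] at h5
  have h7 : (-1 : ℝ) ^ (n * (n - 1) / 2) = (-1) ^ Nn := by
    have : (0 : ℝ) < q ^ n := by positivity
    exact mul_right_cancel₀ this.ne' h5
  have h8 : (n * (n - 1) / 2) % 2 = Nn % 2 := by
    have ha := neg_one_pow_eq_pow_mod_two (R := ℝ) (n * (n - 1) / 2)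
    have hb := neg_one_pow_eq_pow_mod_two (R := ℝ) Nn
    rw [ha, hb] at h7
    rcases Nat.mod_two_eq_zero_or_one (n * (n - 1) / 2) with h | h <;>
    rcases Nat.mod_two_eq_zero_or_one Nn with h' | h' <;> rw [h, h'] at h7 ⊢ <;> norm_num at h7
  -- t = ± q
  have h9 : t = q ∨ t = -q := by
    rw [← hq2] at h1
    exact sq_eq_sq_iff_eq_or_eq_neg.mp h1
  rcases h9 with h9 | h9
  · exact h9
  · exfalso
    rw [h9] at h6
    have h10 : ((n : ℝ) - 2 * Nn) = -1 := by
      have : ((n : ℝ) - 2 * Nn) * q = -1 * q := by linarith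
      exact mul_right_cancel₀ hq0.ne' this
    have h11 : n + 1 = 2 * Nn := by
      have : (n : ℝ) + 1 = 2 * Nn := by linarith
      exact_mod_cast this
    have h12 : n * (n - 1) / 2 = n * ((n - 1) / 2) := by
      obtain ⟨m, hm⟩ : ∃ m, n = 2 * m + 1 := ⟨n / 2, by omega⟩
      rw [hm]
      have e1 : 2 * m + 1 - 1 = 2 * m := by omega
      rw [e1, Nat.mul_div_cancel_left m (by norm_num)]
      rw [show (2 * m + 1) * (2 * m) = 2 * ((2 * m + 1) * m) by ring, Nat.mul_div_cancel_left _ (by norm_num)]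
    rw [h12, Nat.mul_mod, hn, one_mul, Nat.mod_mod] at h8
    omega

end

end Pool.Agent.MP_4f0cf1_nt
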