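import Pool.Agent.MP_4f0cf1_nt.DetA

set_option autoImplicit false
open Finset

namespace Pool.Agent.MP_4f0cf1_nt

section
variable {p n : ℕ} [Fact p.Prime]

lemma det_Dc : (Dc p n).det = (XX p n : ℂ) := by
  unfold Dc XX
  rw [Matrix.det_diagonal]
  push_cast
  rfl

lemma det_Amat_cast : ((Amat p n).map (Int.cast : ℤ → ℂ)).det = ((Amat p n).det : ℂ) :=
  (RingHom.map_det (Int.castRingHom ℂ) (Amat p n)).symm

/-- `det A` for `p ≡ 3 mod 4`. -/
lemma det_Amat_odd (hpn : p = 2 * n + 1) (h4 : p % 4 = 3) :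
    (Amat p n).det = - XX p n * (p : ℤ) ^ ((n - 1) / 2) := by
  have hp2 := p_ne_two (p := p) hpn
  have hp0 : (0 : ℝ) < p := by exact_mod_cast (Fact.out : p.Prime).pos
  have hn : Odd n := by rw [Nat.odd_iff]; omega
  have h := congrArg Matrix.det (SDC (p := p) hpn hp2 (chi_neg_one_odd h4))
  rw [Matrix.det_mul, Matrix.det_mul, Matrix.det_smul, Fintype.card_fin, det_Amat_cast, det_Dc,
    Sc_eq, Cc_eq, Matrix.det_smul, Fintype.card_fin, tau_eq hpn h4] at h
  have h2 : ∀ M : Matrix (Fin n) (Fin n) ℝ, (M.map (fun x : ℝ => (x : ℂ))).det = (M.det : ℂ) := by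
    intro M
    exact (RingHom.map_det Complex.ofRealHom M).symm
  rw [h2, h2, det_Sr hpn, det_Cr hpn hn] at h
  have hI : (Complex.I ^ n : ℂ) ≠ 0 := pow_ne_zero _ Complex.I_ne_zero
  have hq : ((Real.sqrt p : ℝ) : ℂ) ^ n ≠ 0 := by
    apply pow_ne_zero
    have := (Real.sqrt_pos.mpr hp0).ne'
    exact_mod_cast this
  have hs : (-1 : ℂ) ^ (n * (n - 1) / 2) * (-1) ^ ((n + 1) * n / 2) = -1 := by
    rw [← pow_add]
    have : n * (n - 1) / 2 + (n + 1) * n / 2 = n * n := by
      obtain ⟨m, hm⟩ := hn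
      subst hm
      have e1 : (2 * m + 1) * (2 * m + 1 - 1) = 2 * ((2 * m + 1) * m) := by
        have : 2 * m + 1 - 1 = 2 * m := by omega
        rw [this]; ring
      have e2 : (2 * m + 1 + 1) * (2 * m + 1) = 2 * ((m + 1) * (2 * m + 1)) := by ring
      rw [e1, e2, Nat.mul_div_cancel_left _ (by norm_num), Nat.mul_div_cancel_left _ (by norm_num)]
      ring
    rw [this]
    exact Odd.neg_one_pow (hn.mul hn)
  rw [mul_pow, ← det_Amat_cast] at h
  rw [det_Amat_cast] at h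
  simp only [Complex.ofReal_mul, Complex.ofReal_pow, Complex.ofReal_neg, Complex.ofReal_one,
    Complex.ofReal_natCast] at h
  have h3 : (Complex.I ^ n * ((Real.sqrt p : ℝ) : ℂ) ^ n) * ((Amat p n).det : ℂ) =
      (Complex.I ^ n * ((Real.sqrt p : ℝ) : ℂ) ^ n) * (- (XX p n : ℂ) * (p : ℂ) ^ ((n - 1) / 2)) := by
    rw [← h]
    linear_combination (Complex.I ^ n * ((Real.sqrt p : ℝ) : ℂ) ^ n * (XX p n : ℂ) * (p : ℂ) ^ ((n - 1) / 2)) * hs
  have h4 := mul_left_cancel₀ (mul_ne_zero hI hq) h3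
  exact_mod_cast h4

/-- `det A` for `p ≡ 1 mod 4`. -/
lemma det_Amat_even (hpn : p = 2 * n + 1) (h4 : p % 4 = 1) :
    (Amat p n).det = XX p n * (p : ℤ) ^ (n / 2 - 1) := by
  have hp2 := p_ne_two (p := p) hpn
  have hp0 : (p : ℂ) ≠ 0 := by exact_mod_cast (Fact.out : p.Prime).ne_zero
  have hp1 := (Fact.out : p.Prime).one_lt
  have hn1 : 1 ≤ n := by omega
  have h := congrArg Matrix.det (CDC (p := p) hpn hp2 (chi_neg_one_even h4))
  rw [Matrix.det_mul, Matrix.det_mul, Matrix.det_smul, Fintype.card_fin, det_Amat_cast, det_Dc] at h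
  have h1 := det_Cc_sq (p := p) hpn hn1
  have h2 := tau_sq (p := p) hp2
  rw [chi_neg_one_even h4] at h2
  obtain ⟨m, hm⟩ : ∃ m, n = 2 * m + 2 := ⟨n / 2 - 1, by omega⟩
  have h3 : tau p ^ n = (p : ℂ) ^ (m + 1) := by
    rw [hm, show 2 * m + 2 = 2 * (m + 1) by ring, pow_mul, h2]
    push_cast
    rw [one_mul]
  rw [h3] at h
  have e1 : n - 1 = 2 * m + 1 := by omega
  have e2 : n / 2 - 1 = m := by omega
  rw [e1] at h1
  have h5 : (p : ℂ) ^ (m + 1) * ((Amat p n).det : ℂ) = (p : ℂ) ^ (m + 1) * ((XX p n : ℂ) * (p : ℂ) ^ m) := by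
    rw [← h]
    linear_combination (XX p n : ℂ) * h1
  have h6 := mul_left_cancel₀ (pow_ne_zero _ hp0) h5
  rw [e2]
  exact_mod_cast h6

/-- `XX = (-1)^ν` and `∑ χ = n - 2ν`. -/
lemma XX_nu (hpn : p = 2 * n + 1) :
    ∃ ν : ℕ, ν ≤ n ∧ XX p n = (-1) ^ ν ∧ ∑ j : Fin n, chi p (uu p n j) = (n : ℤ) - 2 * ν := by
  refine ⟨(univ.filter (fun j : Fin n => chi p (uu p n j) = -1)).card, ?_, ?_, ?_⟩
  · calc _ ≤ (univ : Finset (Fin n)).card := Finset.card_filter_le _ _
      _ = n := by simp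
  · unfold XX
    have h : ∀ j : Fin n, chi p (uu p n j) = if chi p (uu p n j) = -1 then -1 else 1 := by
      intro j
      rcases quadraticChar_dichotomy (uu_ne_zero hpn j) with h | h
      · rw [show chi p (uu p n j) = 1 from h, if_neg (by norm_num)]
      · rw [show chi p (uu p n j) = -1 from h, if_pos rfl]
    rw [Finset.prod_congr rfl (fun j _ => h j), Finset.prod_ite, Finset.prod_const,
      Finset.prod_const, one_pow, mul_one]
  · have h : ∀ j : Fin n, chi p (uu p n j) = 1 - 2 * (if chi p (uu p n j) = -1 then 1 else 0) := by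
      intro j
      rcases quadraticChar_dichotomy (uu_ne_zero hpn j) with h | h
      · rw [show chi p (uu p n j) = 1 from h, if_neg (by norm_num)]; norm_num
      · rw [show chi p (uu p n j) = -1 from h, if_pos rfl]; norm_num
    rw [Finset.sum_congr rfl (fun j _ => h j), Finset.sum_sub_distrib, ← Finset.mul_sum,
      Finset.sum_const, Finset.card_univ, Fintype.card_fin, Finset.sum_boole]
    simp

lemma half_sum_even (hpn : p = 2 * n + 1) (h4 : p % 4 = 1) :
    ∑ j : Fin n, chi p (uu p n j) = 0 := by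
  have hp2 := p_ne_two (p := p) hpn
  have h := half_sum hpn (fun x : ZMod p => chi p x)
  rw [sum_chi hp2, MulChar.map_zero, zero_add] at h
  have h2 : ∀ j : Fin n, chi p (uu p n j) + chi p (-uu p n j) = 2 * chi p (uu p n j) := by
    intro j
    rw [chi_neg, chi_neg_one_even h4]
    ring
  rw [Finset.sum_congr rfl (fun j _ => h2 j), ← Finset.mul_sum] at h
  linarith

lemma chi_two_mod8 (hp2 : p ≠ 2) : chi p 2 = ZMod.χ₈ (p : ℕ) := by
  have h := quadraticChar_two (F := ZMod p) (by rwa [ZMod.ringChar_zmod_n])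
  rw [ZMod.card] at h
  exact h

/-- The case `p ≡ 1 mod 4`. -/
theorem det_even (hpn : p = 2 * n + 1) (h4 : p % 4 = 1) :
    (Mmat p n).det = chi p 2 * (p : ℤ) ^ ((p - 5) / 4) := by
  have hp2 := p_ne_two (p := p) hpn
  have hp1 := (Fact.out : p.Prime).one_lt
  rw [det_Mmat hpn hp2, half_sum_even hpn h4, det_Amat_even hpn h4, sub_zero, mul_one]
  obtain ⟨ν, _, h1, h2⟩ := XX_nu (p := p) hpn
  rw [half_sum_even hpn h4] at h2
  have h3 : n = 2 * ν := by omega
  have h5 : (p - 5) / 4 = n / 2 - 1 := by omega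
  rw [h5]
  congr 1
  rw [h1, chi_two_mod8 hp2, ZMod.χ₈_nat_eq_if_mod_eight]
  rw [neg_one_pow_eq_pow_mod_two]
  have h8 : p % 8 = 1 ∨ p % 8 = 5 := by omega
  rcases h8 with h8 | h8
  · rw [if_neg (by omega), if_pos (by omega)]
    have : ν % 2 = 0 := by omega
    rw [this, pow_zero]
  · rw [if_neg (by omega), if_neg (by omega)]
    have : ν % 2 = 1 := by omega
    rw [this, pow_one]

/-- The case `p ≡ 3 mod 4`, conditional on the class number formula. -/
theorem det_odd (hpn : p = 2 * n + 1) (h4 : p % 4 = 3) (h : ℕ)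
    (hh : ∑ j : Fin n, chi p (uu p n j) = (2 - chi p 2) * h) :
    (Mmat p n).det = (-1) ^ ((h - 1) / 2) * (1 - (2 - chi p 2) * h) * (p : ℤ) ^ ((p - 3) / 4) := by
  have hp2 := p_ne_two (p := p) hpn
  have hp1 := (Fact.out : p.Prime).one_lt
  rw [det_Mmat hpn hp2, hh, det_Amat_odd hpn h4]
  obtain ⟨ν, hν, h1, h2⟩ := XX_nu (p := p) hpn
  rw [hh] at h2
  have h5 : (p - 3) / 4 = (n - 1) / 2 := by omega
  rw [h5]
  have key : - XX p n = (-1) ^ ((h - 1) / 2) := by
    rw [h1, chi_two_mod8 hp2, ZMod.χ₈_nat_eq_if_mod_eight] at *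
    have h8 : p % 8 = 3 ∨ p % 8 = 7 := by omega
    rw [neg_one_pow_eq_pow_mod_two, neg_one_pow_eq_pow_mod_two (n := (h - 1) / 2)]
    rcases h8 with h8 | h8
    · rw [if_neg (by omega), if_neg (by omega)] at h2
      have h9 : (3 : ℤ) * h = n - 2 * ν := by linarith
      have h10 : 3 * h + 2 * ν = n := by omega
      have : ν % 2 ≠ ((h - 1) / 2) % 2 := by omega
      rcases Nat.mod_two_eq_zero_or_one ν with e | e <;>
      rcases Nat.mod_two_eq_zero_or_one ((h - 1) / 2) with e' | e' <;>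
      first | (exfalso; omega) | (rw [e, e']; norm_num)
    · rw [if_neg (by omega), if_pos (by omega)] at h2
      have h9 : (h : ℤ) = n - 2 * ν := by linarith
      have h10 : h + 2 * ν = n := by omega
      have : ν % 2 ≠ ((h - 1) / 2) % 2 := by omega
      rcases Nat.mod_two_eq_zero_or_one ν with e | e <;>
      rcases Nat.mod_two_eq_zero_or_one ((h - 1) / 2) with e' | e' <;>
      first | (exfalso; omega) | (rw [e, e']; norm_num)
  rw [← key]
  ring

end

end Pool.Agent.MP_4f0cf1_nt
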