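import Pool.Agent.MP_4f0cf1_nt.Half

set_option autoImplicit false
open Finset

namespace Pool.Agent.MP_4f0cf1_nt

section
variable {p n : ℕ} [Fact p.Prime]

lemma half_sum' (hpn : p = 2 * n + 1) (g : ZMod p → ℂ) :
    ∑ t : Fin n, (g (uu p n t) + g (-uu p n t)) = ∑ x, g x - g 0 := by
  rw [half_sum hpn g]; ring

/-- The additive character `x ↦ exp(2πi x/p)`. -/
noncomputable def ee (p : ℕ) [Fact p.Prime] : AddChar (ZMod p) ℂ := ZMod.stdAddChar

lemma ee_prim : (ee p).IsPrimitive := ZMod.isPrimitive_stdAddChar p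

/-- quadratic character with complex values -/
noncomputable def chiC (p : ℕ) [Fact p.Prime] : MulChar (ZMod p) ℂ :=
  (quadraticChar (ZMod p)).ringHomComp (Int.castRingHom ℂ)

lemma chiC_apply (x : ZMod p) : chiC p x = (chi p x : ℂ) := rfl

lemma chiC_ne_one (hp2 : p ≠ 2) : chiC p ≠ 1 := by
  unfold chiC
  rw [MulChar.ringHomComp_ne_one_iff]
  · exact quadraticChar_ne_one (by rwa [ZMod.ringChar_zmod_n])
  · exact Int.cast_injective

lemma chiC_quad : (chiC p).IsQuadratic :=
  (quadraticChar_isQuadratic (ZMod p)).comp _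

/-- the Gauss sum -/
noncomputable def tau (p : ℕ) [Fact p.Prime] : ℂ := gaussSum (chiC p) (ee p)

lemma tau_sq (hp2 : p ≠ 2) : tau p ^ 2 = (chi p (-1) : ℂ) * p := by
  have h := gaussSum_sq (chiC_ne_one hp2) chiC_quad (ee_prim (p := p))
  rw [ZMod.card] at h
  exact h

lemma tau_shift (hp2 : p ≠ 2) (a : ZMod p) :
    ∑ x : ZMod p, (chi p x : ℂ) * ee p (x * a) = (chi p a : ℂ) * tau p := by
  by_cases ha : a = 0
  · subst ha
    simp only [mul_zero, AddChar.map_zero_eq_one, mul_one, MulChar.map_zero, Int.cast_zero,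
      zero_mul]
    have := sum_chi (p := p) hp2
    exact_mod_cast this
  · have h := gaussSum_mulShift (chiC p) (ee p) (Units.mk0 a ha)
    have h2 : gaussSum (chiC p) (AddChar.mulShift (ee p) a) =
        ∑ x : ZMod p, (chi p x : ℂ) * ee p (x * a) := by
      unfold gaussSum
      apply Finset.sum_congr rfl
      intro x _
      rw [AddChar.mulShift_apply, mul_comm a x, chiC_apply]
    rw [← h2]
    unfold tau
    rw [← h]
    rw [Units.val_mk0, chiC_apply, ← mul_assoc]
    have h3 : (chi p a : ℂ) * (chi p a : ℂ) = 1 := by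
      have := quadraticChar_sq_one ha
      rw [← sq]
      exact_mod_cast this
    rw [h3, one_mul]

/-- cosine matrix -/
noncomputable def Cc (p n : ℕ) [Fact p.Prime] : Matrix (Fin n) (Fin n) ℂ :=
  Matrix.of fun j k => ee p (uu p n j * uu p n k) + ee p (-(uu p n j * uu p n k))

/-- sine matrix (times 2i) -/
noncomputable def Sc (p n : ℕ) [Fact p.Prime] : Matrix (Fin n) (Fin n) ℂ :=
  Matrix.of fun j k => ee p (uu p n j * uu p n k) - ee p (-(uu p n j * uu p n k))

/-- diagonal matrix of the character -/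
noncomputable def Dc (p n : ℕ) [Fact p.Prime] : Matrix (Fin n) (Fin n) ℂ :=
  Matrix.diagonal fun t => (chi p (uu p n t) : ℂ)

lemma sum_ee (b : ZMod p) : ∑ x : ZMod p, ee p (x * b) = if b = 0 then (p : ℂ) else 0 := by
  have h := AddChar.sum_mulShift b (ee_prim (p := p))
  rw [h]
  split_ifs <;> simp [ZMod.card]

lemma Cc_mul_Cc (hpn : p = 2 * n + 1) (j k : Fin n) :
    (Cc p n * Cc p n) j k = (if j = k then (p : ℂ) else 0) - 2 := by
  rw [Matrix.mul_apply]
  simp only [Cc, Matrix.of_apply]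
  have h := half_sum' hpn (fun x => ee p (x * (uu p n j + uu p n k)) + ee p (x * (uu p n j - uu p n k)))
  have h0 : ∑ x : ZMod p, (ee p (x * (uu p n j + uu p n k)) + ee p (x * (uu p n j - uu p n k))) =
      0 + (if j = k then (p : ℂ) else 0) := by
    rw [Finset.sum_add_distrib, sum_ee, sum_ee, if_neg (uu_add_ne_zero hpn j k)]
    simp only [uu_sub_eq_zero_iff hpn]
  rw [h0] at h
  simp only [zero_mul, AddChar.map_zero_eq_one] at h
  rw [show (if j = k then (p : ℂ) else 0) - 2 = 0 + (if j = k then (p : ℂ) else 0) - (1 + 1) by ring,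
    ← h]
  apply Finset.sum_congr rfl
  intro t _
  rw [add_mul, mul_add, mul_add, ← AddChar.map_add_eq_mul, ← AddChar.map_add_eq_mul,
    ← AddChar.map_add_eq_mul, ← AddChar.map_add_eq_mul]
  ring_nf

lemma Sc_mul_Sc (hpn : p = 2 * n + 1) : Sc p n * Sc p n = -(p : ℂ) • (1 : Matrix (Fin n) (Fin n) ℂ) := by
  ext j k
  rw [Matrix.mul_apply]
  simp only [Sc, Matrix.of_apply, Matrix.smul_apply, Matrix.one_apply, smul_eq_mul]
  have h := half_sum' hpn (fun x => ee p (x * (uu p n j + uu p n k)) - ee p (x * (uu p n j - uu p n k)))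
  have h0 : ∑ x : ZMod p, (ee p (x * (uu p n j + uu p n k)) - ee p (x * (uu p n j - uu p n k))) =
      0 - (if j = k then (p : ℂ) else 0) := by
    rw [Finset.sum_sub_distrib, sum_ee, sum_ee, if_neg (uu_add_ne_zero hpn j k)]
    simp only [uu_sub_eq_zero_iff hpn]
  rw [h0] at h
  simp only [zero_mul, AddChar.map_zero_eq_one] at h
  rw [show (-(p : ℂ) * if j = k then (1 : ℂ) else 0) = 0 - (if j = k then (p : ℂ) else 0) - (1 - 1) by
    split_ifs <;> ring, ← h]
  apply Finset.sum_congr rfl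
  intro t _
  rw [sub_mul, mul_sub, mul_sub, ← AddChar.map_add_eq_mul, ← AddChar.map_add_eq_mul,
    ← AddChar.map_add_eq_mul, ← AddChar.map_add_eq_mul]
  ring_nf

lemma chi_neg (x : ZMod p) : chi p (-x) = chi p (-1) * chi p x := by
  rw [← map_mul, neg_one_mul]

lemma SDC (hpn : p = 2 * n + 1) (hp2 : p ≠ 2) (hodd : chi p (-1) = -1) :
    Sc p n * Dc p n * Cc p n = tau p • (Amat p n).map (Int.cast : ℤ → ℂ) := by
  ext j k
  rw [Matrix.mul_apply]
  unfold Dc
  simp only [Matrix.mul_diagonal, Sc, Cc, Amat, Matrix.of_apply, Matrix.smul_apply, Matrix.map_apply,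
    smul_eq_mul]
  have h := half_sum' hpn (fun x => (chi p x : ℂ) * ee p (x * (uu p n j + uu p n k)) +
    (chi p x : ℂ) * ee p (x * (uu p n j - uu p n k)))
  have h0 : ∑ x : ZMod p, ((chi p x : ℂ) * ee p (x * (uu p n j + uu p n k)) +
      (chi p x : ℂ) * ee p (x * (uu p n j - uu p n k))) =
      (chi p (uu p n j + uu p n k) : ℂ) * tau p + (chi p (uu p n j - uu p n k) : ℂ) * tau p := by
    rw [Finset.sum_add_distrib, tau_shift hp2, tau_shift hp2]
  rw [h0] at h
  simp only [zero_mul, AddChar.map_zero_eq_one, MulChar.map_zero, Int.cast_zero, add_zero,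
    sub_zero] at h
  push_cast
  rw [show tau p * ((chi p (uu p n j + uu p n k) : ℂ) + (chi p (uu p n j - uu p n k) : ℂ)) =
    (chi p (uu p n j + uu p n k) : ℂ) * tau p + (chi p (uu p n j - uu p n k) : ℂ) * tau p by ring,
    ← h]
  apply Finset.sum_congr rfl
  intro t _
  rw [chi_neg (uu p n t), hodd]
  push_cast
  rw [show (ee p (uu p n j * uu p n t) - ee p (-(uu p n j * uu p n t))) * (chi p (uu p n t) : ℂ) *
    (ee p (uu p n t * uu p n k) + ee p (-(uu p n t * uu p n k))) =
    (chi p (uu p n t) : ℂ) * (ee p (uu p n j * uu p n t) * ee p (uu p n t * uu p n k)) +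
    (chi p (uu p n t) : ℂ) * (ee p (uu p n j * uu p n t) * ee p (-(uu p n t * uu p n k))) -
    (chi p (uu p n t) : ℂ) * (ee p (-(uu p n j * uu p n t)) * ee p (uu p n t * uu p n k)) -
    (chi p (uu p n t) : ℂ) * (ee p (-(uu p n j * uu p n t)) * ee p (-(uu p n t * uu p n k))) by ring,
    ← AddChar.map_add_eq_mul, ← AddChar.map_add_eq_mul,
    ← AddChar.map_add_eq_mul, ← AddChar.map_add_eq_mul]
  ring_nf

lemma CDC (hpn : p = 2 * n + 1) (hp2 : p ≠ 2) (heven : chi p (-1) = 1) :
    Cc p n * Dc p n * Cc p n = tau p • (Amat p n).map (Int.cast : ℤ → ℂ) := by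
  ext j k
  rw [Matrix.mul_apply]
  unfold Dc
  simp only [Matrix.mul_diagonal, Cc, Amat, Matrix.of_apply, Matrix.smul_apply, Matrix.map_apply,
    smul_eq_mul]
  have h := half_sum' hpn (fun x => (chi p x : ℂ) * ee p (x * (uu p n j + uu p n k)) +
    (chi p x : ℂ) * ee p (x * (uu p n j - uu p n k)))
  have h0 : ∑ x : ZMod p, ((chi p x : ℂ) * ee p (x * (uu p n j + uu p n k)) +
      (chi p x : ℂ) * ee p (x * (uu p n j - uu p n k))) =
      (chi p (uu p n j + uu p n k) : ℂ) * tau p + (chi p (uu p n j - uu p n k) : ℂ) * tau p := by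
    rw [Finset.sum_add_distrib, tau_shift hp2, tau_shift hp2]
  rw [h0] at h
  simp only [zero_mul, AddChar.map_zero_eq_one, MulChar.map_zero, Int.cast_zero, add_zero,
    sub_zero] at h
  push_cast
  rw [show tau p * ((chi p (uu p n j + uu p n k) : ℂ) + (chi p (uu p n j - uu p n k) : ℂ)) =
    (chi p (uu p n j + uu p n k) : ℂ) * tau p + (chi p (uu p n j - uu p n k) : ℂ) * tau p by ring,
    ← h]
  apply Finset.sum_congr rfl
  intro t _
  rw [chi_neg (uu p n t), heven]
  push_cast
  rw [show (ee p (uu p n j * uu p n t) + ee p (-(uu p n j * uu p n t))) * (chi p (uu p n t) : ℂ) *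
    (ee p (uu p n t * uu p n k) + ee p (-(uu p n t * uu p n k))) =
    (chi p (uu p n t) : ℂ) * (ee p (uu p n j * uu p n t) * ee p (uu p n t * uu p n k)) +
    (chi p (uu p n t) : ℂ) * (ee p (uu p n j * uu p n t) * ee p (-(uu p n t * uu p n k))) +
    (chi p (uu p n t) : ℂ) * (ee p (-(uu p n j * uu p n t)) * ee p (uu p n t * uu p n k)) +
    (chi p (uu p n t) : ℂ) * (ee p (-(uu p n j * uu p n t)) * ee p (-(uu p n t * uu p n k))) by ring,
    ← AddChar.map_add_eq_mul, ← AddChar.map_add_eq_mul,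
    ← AddChar.map_add_eq_mul, ← AddChar.map_add_eq_mul]
  ring_nf

/-- `det (C)^2 = p^(n-1)` -/
lemma det_Cc_sq (hpn : p = 2 * n + 1) (hn : 1 ≤ n) : (Cc p n).det ^ 2 = (p : ℂ) ^ (n - 1) := by
  rw [sq, ← Matrix.det_mul]
  have h1 : Cc p n * Cc p n = (p : ℂ) • (1 + Matrix.replicateCol Unit (fun _ : Fin n => (-2 / p : ℂ)) *
      Matrix.replicateRow Unit (fun _ : Fin n => (1 : ℂ))) := by
    ext j k
    rw [Cc_mul_Cc hpn]
    have hp0 : (p : ℂ) ≠ 0 := by
      have := (Fact.out : p.Prime).ne_zero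
      exact_mod_cast this
    simp only [Matrix.smul_apply, Matrix.add_apply, Matrix.one_apply, Matrix.mul_apply,
      Matrix.replicateCol_apply, Matrix.replicateRow_apply, Finset.univ_unique,
      Finset.sum_singleton, smul_eq_mul]
    split_ifs <;> field_simp <;> ring
  rw [h1, Matrix.det_smul, Fintype.card_fin, Matrix.det_one_add_mul_comm, Matrix.det_unique]
  have hp0 : (p : ℂ) ≠ 0 := by
    have := (Fact.out : p.Prime).ne_zero
    exact_mod_cast this
  simp only [Matrix.add_apply, Matrix.one_apply_eq, Matrix.mul_apply, Matrix.replicateRow_apply,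
    Matrix.replicateCol_apply, one_mul, Finset.sum_const, Finset.card_univ, Fintype.card_fin,
    nsmul_eq_mul]
  have h2 : (1 + (n : ℂ) * (-2 / p)) = 1 / p := by
    have h3 : (p : ℂ) = 2 * n + 1 := by exact_mod_cast hpn
    field_simp
    rw [h3]; ring
  rw [h2]
  obtain ⟨m, rfl⟩ : ∃ m, n = m + 1 := ⟨n - 1, by omega⟩
  rw [pow_succ]
  simp only [Nat.add_sub_cancel]
  field_simp

end

end Pool.Agent.MP_4f0cf1_nt
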