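import Mathlib

set_option autoImplicit false
open Finset Filter Topology Complex HurwitzZeta

namespace Pool.Agent.MP_4f0cf1_nt

/-- the `n`-th term -/
noncomputable def tt (a s : ℝ) (n : ℕ) : ℝ := 1 / ((n : ℝ) + a) ^ s - 1 / ((n : ℝ) + 1 - a) ^ s

lemma rpow_diff_bound {x y s : ℝ} (hx : 0 < x) (hxy : x ≤ y) (hs : 1 ≤ s) :
    0 ≤ 1 / x ^ s - 1 / y ^ s ∧ 1 / x ^ s - 1 / y ^ s ≤ s * (y - x) / (x ^ s * y) := by
  have hy : 0 < y := lt_of_lt_of_le hx hxy
  have hxs : 0 < x ^ s := Real.rpow_pos_of_pos hx s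
  have hys : 0 < y ^ s := Real.rpow_pos_of_pos hy s
  have hle : x ^ s ≤ y ^ s := Real.rpow_le_rpow hx.le hxy (by linarith)
  constructor
  · rw [sub_nonneg]
    exact one_div_le_one_div_of_le hxs hle
  · have h1 := one_add_mul_self_le_rpow_one_add (s := -(y - x) / y) (p := s) (by
      rw [le_div_iff₀ hy]; linarith) hs
    have h2 : 1 + -(y - x) / y = x / y := by field_simp; ring
    rw [h2, Real.div_rpow hx.le hy.le] at h1
    have h3 : 1 / x ^ s - 1 / y ^ s = (1 - x ^ s / y ^ s) / x ^ s := by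
      field_simp
    rw [h3, div_le_iff₀ hxs]
    have h4 : s * (y - x) / (x ^ s * y) * x ^ s = s * ((y - x) / y) := by
      field_simp
    rw [h4]
    have h5 : s * (-(y - x) / y) = - (s * ((y - x) / y)) := by ring
    rw [h5] at h1
    linarith

lemma tt_bound {a s : ℝ} (ha : 0 < a) (ha1 : a < 1) (hs : 1 ≤ s) (hs2 : s ≤ 2) (n : ℕ) :
    |tt a s n| ≤ (1 / min a (1 - a)) ^ 4 * (4 / ((n : ℝ) + 1) ^ 2) := by
  set c := min a (1 - a) with hc
  have hc0 : 0 < c := lt_min ha (by linarith)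
  have hca : c ≤ a := min_le_left _ _
  have hca' : c ≤ 1 - a := min_le_right _ _
  have hc1 : c < 1 := by linarith
  have hn : (0 : ℝ) ≤ n := Nat.cast_nonneg n
  -- generic
  have key : ∀ x y : ℝ, (n : ℝ) + c ≤ x → x ≤ y → y ≤ (n : ℝ) + 1 →
      |1 / x ^ s - 1 / y ^ s| ≤ (1 / c) ^ 4 * (4 / ((n : ℝ) + 1) ^ 2) := by
    intro x y hx hxy hy
    have hx0 : 0 < x := by linarith
    have hy0 : 0 < y := by linarith
    obtain ⟨h1, h2⟩ := rpow_diff_bound hx0 hxy hs
    rw [abs_of_nonneg h1]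
    refine h2.trans ?_
    have hcn : c * ((n : ℝ) + 1) ≤ x := by nlinarith
    have hcn' : c * ((n : ℝ) + 1) ≤ y := by linarith
    have hn1 : (0 : ℝ) < (n : ℝ) + 1 := by linarith
    -- x ^ s ≥ c^2 (n+1)
    have h3 : c ^ 2 * ((n : ℝ) + 1) ≤ x ^ s := by
      by_cases hx1 : 1 ≤ x
      · have h4 : x ^ (1 : ℝ) ≤ x ^ s := Real.rpow_le_rpow_of_exponent_le hx1 hs
        rw [Real.rpow_one] at h4
        nlinarith
      · push Not at hx1
        have h4 : x ^ (2 : ℝ) ≤ x ^ s := Real.rpow_le_rpow_of_exponent_ge hx0 hx1.le hs2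
        have h5 : x ^ (2 : ℝ) = x ^ 2 := by exact_mod_cast Real.rpow_natCast x 2
        rw [h5] at h4
        have h6 : (c * ((n : ℝ) + 1)) ^ 2 ≤ x ^ 2 := by
          apply pow_le_pow_left₀ (by positivity) hcn
        have h7 : c ^ 2 * ((n : ℝ) + 1) ≤ (c * ((n : ℝ) + 1)) ^ 2 := by
          rw [mul_pow]
          apply mul_le_mul_of_nonneg_left _ (by positivity)
          nlinarith
        linarith
    have h8 : c ^ 3 * ((n : ℝ) + 1) ^ 2 ≤ x ^ s * y := by
      calc c ^ 3 * ((n : ℝ) + 1) ^ 2 = (c ^ 2 * ((n : ℝ) + 1)) * (c * ((n : ℝ) + 1)) := by ring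
        _ ≤ x ^ s * y := mul_le_mul h3 hcn' (by positivity) (by positivity)
    have h9 : s * (y - x) ≤ 2 := by nlinarith
    calc s * (y - x) / (x ^ s * y) ≤ 2 / (c ^ 3 * ((n : ℝ) + 1) ^ 2) := by
          apply div_le_div₀ (by norm_num) h9 (by positivity) h8
      _ ≤ (1 / c) ^ 4 * (4 / ((n : ℝ) + 1) ^ 2) := by
          rw [div_pow, one_pow, one_div, ← div_eq_inv_mul, div_div, div_le_div_iff₀ (by positivity)
            (by positivity)]
          have h10 : c ^ 4 ≤ c ^ 3 := by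
            apply pow_le_pow_of_le_one hc0.le hc1.le (by norm_num)
          have : (0 : ℝ) < ((n : ℝ) + 1) ^ 2 := by positivity
          nlinarith [mul_le_mul_of_nonneg_right h10 this.le, pow_pos hc0 3]
  unfold tt
  rcases le_total a (1 - a) with h | h
  · exact key _ _ (by linarith) (by linarith) (by linarith)
  · rw [abs_sub_comm]
    exact key _ _ (by linarith) (by linarith) (by linarith)

lemma summable_bd (C : ℝ) : Summable (fun n : ℕ => C * (4 / ((n : ℝ) + 1) ^ 2)) := by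
  apply Summable.mul_left
  have h : Summable (fun n : ℕ => (1 : ℝ) / ((n : ℝ) + 1) ^ 2) := by
    have h1 := (summable_nat_add_iff 1).mpr (Real.summable_one_div_nat_pow.mpr (by norm_num : 1 < 2))
    simpa using h1
  refine (h.mul_left 4).congr ?_
  intro n
  rw [mul_one_div]

lemma tendsto_tsum_tt {a : ℝ} (ha : 0 < a) (ha1 : a < 1) :
    Tendsto (fun s : ℝ => ∑' n : ℕ, tt a s n) (𝓝[>] 1) (𝓝 (∑' n : ℕ, tt a 1 n)) := by
  apply tendsto_tsum_of_dominated_convergence (bound := fun n : ℕ =>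
    (1 / min a (1 - a)) ^ 4 * (4 / ((n : ℝ) + 1) ^ 2)) (summable_bd _)
  · intro n
    have h1 : (0 : ℝ) < (n : ℝ) + a := by positivity
    have h2 : (0 : ℝ) < (n : ℝ) + 1 - a := by
      have : (0 : ℝ) ≤ n := Nat.cast_nonneg n
      linarith
    have : ContinuousAt (fun s : ℝ => tt a s n) 1 := by
      unfold tt
      apply ContinuousAt.sub
      · apply ContinuousAt.div continuousAt_const
        · exact Real.continuousAt_const_rpow h1.ne'
        · exact (Real.rpow_pos_of_pos h1 _).ne'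
      · apply ContinuousAt.div continuousAt_const
        · exact Real.continuousAt_const_rpow h2.ne'
        · exact (Real.rpow_pos_of_pos h2 _).ne'
    exact this.tendsto.mono_left nhdsWithin_le_nhds
  · have h : ∀ᶠ s : ℝ in 𝓝[>] 1, s ∈ Set.Ioo (1 : ℝ) 2 := Ioo_mem_nhdsGT (by norm_num)
    filter_upwards [h] with s hs n
    rw [Real.norm_eq_abs]
    exact tt_bound ha ha1 hs.1.le hs.2.le n

lemma summable_tt_one {a : ℝ} (ha : 0 < a) (ha1 : a < 1) : Summable (fun n => tt a 1 n) := by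
  apply Summable.of_norm_bounded (summable_bd ((1 / min a (1 - a)) ^ 4))
  intro n
  rw [Real.norm_eq_abs]
  exact tt_bound ha ha1 le_rfl (by norm_num) n

lemma not_int {a : ℝ} (ha : 0 < a) (ha1 : a < 1) : (a : ℂ) ∈ integerComplement := by
  rw [Complex.mem_integerComplement_iff]
  rintro ⟨k, hk⟩
  have h : (k : ℝ) = a := by exact_mod_cast hk
  have h1 : (0 : ℝ) < k := by linarith
  have h2 : (k : ℝ) < 1 := by linarith
  have h3 : (0 : ℤ) < k := by exact_mod_cast h1
  have h4 : k < (1 : ℤ) := by exact_mod_cast h2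
  omega

lemma tsum_tt_one {a : ℝ} (ha : 0 < a) (ha1 : a < 1) :
    ((∑' n : ℕ, tt a 1 n : ℝ) : ℂ) = Real.pi * Complex.cot (Real.pi * a) := by
  have hz := not_int ha ha1
  have h1 := (summable_cotTerm hz).hasSum.tendsto_sum_nat
  have h2 := cot_series_rep' hz
  have e2 : ∑' n, cotTerm (a : ℂ) n = Real.pi * cot (Real.pi * a) - 1 / (a : ℂ) := by
    rw [h2]
  rw [e2] at h1
  have h3 := (summable_tt_one ha ha1).hasSum.tendsto_sum_nat
  have h4 := h3.comp (tendsto_add_atTop_nat 1)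
  have h5 : Tendsto (fun N : ℕ => ((∑ n ∈ range (N + 1), tt a 1 n : ℝ) : ℂ)) atTop
      (𝓝 ((∑' n : ℕ, tt a 1 n : ℝ) : ℂ)) := (Complex.continuous_ofReal.tendsto _).comp h4
  have h6 : ∀ N : ℕ, ((∑ n ∈ range (N + 1), tt a 1 n : ℝ) : ℂ) =
      1 / (a : ℂ) + ∑ n ∈ range N, cotTerm (a : ℂ) n - 1 / ((N : ℂ) + 1 - a) := by
    intro N
    have hne1 : ∀ n : ℕ, ((n : ℂ) + a) ≠ 0 := by
      intro n
      have h : (0 : ℝ) < (n : ℝ) + a := by positivity
      exact_mod_cast h.ne'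
    have hne2 : ∀ n : ℕ, ((n : ℂ) + 1 - a) ≠ 0 := by
      intro n
      have h : (0 : ℝ) < (n : ℝ) + 1 - a := by
        have : (0 : ℝ) ≤ n := Nat.cast_nonneg n
        linarith
      exact_mod_cast h.ne'
    induction N with
    | zero =>
      simp [tt]
    | succ N ih =>
      rw [Finset.sum_range_succ, Complex.ofReal_add, ih, Finset.sum_range_succ _ N]
      unfold tt cotTerm
      have e1 : (N + 1 : ℕ) + a - 1 = (N : ℝ) + a := by push_cast; ring
      have f1 := hne1 (N + 1)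
      have f2 := hne2 (N + 1)
      have f3 := hne2 N
      have f4 : (a : ℂ) - (N + 1) ≠ 0 := by
        intro h
        apply f3
        linear_combination -h
      have f5 : (a : ℂ) + (N + 1) ≠ 0 := by
        intro h
        apply f1
        push_cast
        linear_combination h
      push_cast
      simp only [Real.rpow_one]
      push_cast at f1 f2
      have g1 : 1 / ((a : ℂ) - (N + 1)) = - (1 / ((N : ℂ) + 1 - a)) := by
        rw [← neg_sub, div_neg]
      have g2 : (a : ℂ) + (N + 1) = N + 1 + a := by ring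
      rw [g1, g2]
      push_cast
      ring
  have h7 : Tendsto (fun N : ℕ => 1 / ((N : ℂ) + 1 - a)) atTop (𝓝 0) := by
    have h8 : Tendsto (fun N : ℕ => 1 / ((N : ℝ) + 1 - a)) atTop (𝓝 0) := by
      have h9 : Tendsto (fun N : ℕ => (N : ℝ) + 1 - a) atTop atTop := by
        have := tendsto_natCast_atTop_atTop (R := ℝ)
        have h10 := tendsto_atTop_add_const_right atTop (1 - a) this
        simpa [add_sub_assoc] using h10
      refine (tendsto_inv_atTop_zero.comp h9).congr ?_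
      intro N
      simp
    have h9 := (Complex.continuous_ofReal.tendsto _).comp h8
    rw [Complex.ofReal_zero] at h9
    refine h9.congr ?_
    intro N
    simp
  have h8 : Tendsto (fun N : ℕ => 1 / (a : ℂ) + ∑ n ∈ range N, cotTerm (a : ℂ) n -
      1 / ((N : ℂ) + 1 - a)) atTop (𝓝 (1 / (a : ℂ) + (Real.pi * cot (Real.pi * a) - 1 / (a : ℂ)) - 0)) :=
    (tendsto_const_nhds.add h1).sub h7
  have h9 := tendsto_nhds_unique (h5.congr h6) h8
  rw [h9]
  ring

/-- The value of the odd Hurwitz zeta function at `1`. -/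
lemma hurwitzZetaOdd_one {a : ℝ} (ha : 0 < a) (ha1 : a < 1) :
    hurwitzZetaOdd (a : UnitAddCircle) 1 = (Real.pi / 2 : ℂ) * Complex.cot (Real.pi * a) := by
  have hc : Continuous (hurwitzZetaOdd (a : UnitAddCircle)) :=
    (differentiable_hurwitzZetaOdd _).continuous
  have h1 : Tendsto (fun s : ℝ => hurwitzZetaOdd (a : UnitAddCircle) (s : ℂ)) (𝓝[>] 1)
      (𝓝 (hurwitzZetaOdd (a : UnitAddCircle) 1)) := by
    have h2 : Tendsto (fun s : ℝ => hurwitzZetaOdd (a : UnitAddCircle) (s : ℂ)) (𝓝 1)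
      (𝓝 (hurwitzZetaOdd (a : UnitAddCircle) ((1 : ℝ) : ℂ))) :=
      ((hc.comp Complex.continuous_ofReal).tendsto 1)
    rw [Complex.ofReal_one] at h2
    exact h2.mono_left nhdsWithin_le_nhds
  have h2 : ∀ s : ℝ, 1 < s → hurwitzZetaOdd (a : UnitAddCircle) (s : ℂ) =
      ((∑' n : ℕ, tt a s n : ℝ) : ℂ) / 2 := by
    intro s hs
    have h3 := hasSum_nat_hurwitzZetaOdd_of_mem_Icc (a := a) ⟨ha.le, ha1.le⟩ (s := (s : ℂ))
      (by simpa using hs)
    rw [← h3.tsum_eq, Complex.ofReal_tsum, ← tsum_div_const]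
    apply tsum_congr
    intro n
    unfold tt
    have h4 : (0 : ℝ) ≤ (n : ℝ) + a := by positivity
    have h5 : (0 : ℝ) ≤ (n : ℝ) + 1 - a := by
      have : (0 : ℝ) ≤ n := Nat.cast_nonneg n
      linarith
    push_cast
    rw [Complex.ofReal_cpow h4, Complex.ofReal_cpow h5]
    push_cast
    rfl
  have h3 : Tendsto (fun s : ℝ => ((∑' n : ℕ, tt a s n : ℝ) : ℂ) / 2) (𝓝[>] 1)
      (𝓝 (((∑' n : ℕ, tt a 1 n : ℝ) : ℂ) / 2)) :=
    ((Complex.continuous_ofReal.tendsto _).comp (tendsto_tsum_tt ha ha1)).div_const 2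
  have h4 : Tendsto (fun s : ℝ => hurwitzZetaOdd (a : UnitAddCircle) (s : ℂ)) (𝓝[>] 1)
      (𝓝 (((∑' n : ℕ, tt a 1 n : ℝ) : ℂ) / 2)) := by
    refine h3.congr' ?_
    filter_upwards [self_mem_nhdsWithin] with s hs
    exact (h2 s hs).symm
  have h5 := tendsto_nhds_unique h1 h4
  rw [h5, tsum_tt_one ha ha1]
  ring

end Pool.Agent.MP_4f0cf1_nt
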