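import Mathlib

set_option autoImplicit false
open Finset

namespace Pool.Agent.MP_4f0cf1_nt

section half
variable {p n : ℕ} [Fact p.Prime]

/-- The residue `j + 1`. -/
def uu (p n : ℕ) (j : Fin n) : ZMod p := ((j : ℕ) : ZMod p) + 1

lemma sum_zmod_eq_range {R : Type*} [AddCommMonoid R] (f : ZMod p → R) :
    ∑ x, f x = ∑ i ∈ range p, f (i : ZMod p) := by
  symm
  apply Finset.sum_nbij' (i := fun (i : ℕ) => (i : ZMod p)) (j := fun (x : ZMod p) => x.val)
  · intro i _; exact mem_univ _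
  · intro x _; exact mem_range.mpr (ZMod.val_lt x)
  · intro i hi; exact ZMod.val_cast_of_lt (mem_range.mp hi)
  · intro x _; exact ZMod.natCast_zmod_val x
  · intro i _; rfl

lemma half_sum (hpn : p = 2 * n + 1) {R : Type*} [AddCommMonoid R] (f : ZMod p → R) :
    ∑ x, f x = f 0 + ∑ j : Fin n, (f (uu p n j) + f (-uu p n j)) := by
  rw [sum_zmod_eq_range]
  have h1 : ∑ i ∈ range p, f (i : ZMod p) =
      ∑ i ∈ range (2 * n), f ((i + 1 : ℕ) : ZMod p) + f ((0 : ℕ) : ZMod p) := by
    have h0 := Finset.sum_range_succ' (fun i : ℕ => f (i : ZMod p)) (2 * n)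
    rw [← hpn] at h0
    exact h0
  rw [h1, two_mul, Finset.sum_range_add, Nat.cast_zero, add_comm (f 0)]
  congr 1
  rw [Finset.sum_add_distrib]
  congr 1
  · rw [← Fin.sum_univ_eq_sum_range (fun i => f ((i + 1 : ℕ) : ZMod p))]
    apply Finset.sum_congr rfl
    intro j _
    unfold uu
    push_cast
    rfl
  · rw [← Finset.sum_range_reflect,
      ← Fin.sum_univ_eq_sum_range (fun i => f ((n + (n - 1 - i) + 1 : ℕ) : ZMod p))]
    apply Finset.sum_congr rfl
    intro j _
    congr 1
    have hj := j.2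
    have h2 : (n + (n - 1 - (j : ℕ)) + 1) + ((j : ℕ) + 1) = p := by omega
    have h3 : ((n + (n - 1 - (j : ℕ)) + 1 : ℕ) : ZMod p) + (((j : ℕ) + 1 : ℕ) : ZMod p) = 0 := by
      rw [← Nat.cast_add, h2, ZMod.natCast_self]
    unfold uu
    rw [eq_neg_iff_add_eq_zero]
    push_cast at h3 ⊢
    exact h3

lemma uu_ne_zero (hpn : p = 2 * n + 1) (j : Fin n) : uu p n j ≠ 0 := by
  unfold uu
  intro h
  have h1 : (((j : ℕ) + 1 : ℕ) : ZMod p) = 0 := by push_cast; exact h
  rw [ZMod.natCast_eq_zero_iff] at h1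
  have := Nat.le_of_dvd (by omega) h1
  have := j.2
  omega

lemma uu_add_ne_zero (hpn : p = 2 * n + 1) (j k : Fin n) : uu p n j + uu p n k ≠ 0 := by
  unfold uu
  intro h
  have h1 : (((j : ℕ) + 1 + ((k : ℕ) + 1) : ℕ) : ZMod p) = 0 := by push_cast; exact h
  rw [ZMod.natCast_eq_zero_iff] at h1
  have := Nat.le_of_dvd (by omega) h1
  have := j.2
  have := k.2
  omega

lemma uu_sub_eq_zero_iff (hpn : p = 2 * n + 1) (j k : Fin n) :
    uu p n j - uu p n k = 0 ↔ j = k := by
  unfold uu
  constructor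
  · intro h
    have h1 : ((j : ℕ) : ZMod p) = ((k : ℕ) : ZMod p) := by
      have := sub_eq_zero.mp h
      exact add_right_cancel this
    rw [ZMod.natCast_eq_natCast_iff'] at h1
    have := j.2
    have := k.2
    rw [Nat.mod_eq_of_lt (by omega), Nat.mod_eq_of_lt (by omega)] at h1
    exact Fin.ext h1
  · rintro rfl
    exact sub_self _

end half

section mats
variable (p n : ℕ) [Fact p.Prime]

/-- The quadratic character. -/
abbrev chi : MulChar (ZMod p) ℤ := quadraticChar (ZMod p)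

/-- The matrix `χ(j+k) + χ(j-k)`. -/
def Amat : Matrix (Fin n) (Fin n) ℤ :=
  Matrix.of fun j k => chi p (uu p n j + uu p n k) + chi p (uu p n j - uu p n k)

/-- The full matrix. -/
def Mmat : Matrix (Fin n) (Fin n) ℤ :=
  Matrix.of fun j k => chi p (uu p n j + uu p n k) + chi p (uu p n j - uu p n k)
    + chi p (uu p n j * uu p n k)

variable {p n}

lemma sum_chi (hp2 : p ≠ 2) : ∑ x : ZMod p, chi p x = 0 :=
  quadraticChar_sum_zero (by rwa [ZMod.ringChar_zmod_n])

lemma Amat_row_sum (hpn : p = 2 * n + 1) (hp2 : p ≠ 2) (j : Fin n) :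
    ∑ k : Fin n, Amat p n j k = - chi p (uu p n j) := by
  have h := half_sum hpn (fun x : ZMod p => chi p (uu p n j + x))
  have h2 : ∑ x : ZMod p, chi p (uu p n j + x) = 0 := by
    rw [← sum_chi hp2]
    exact Fintype.sum_equiv (Equiv.addLeft (uu p n j)) _ _ (fun x => rfl)
  rw [h2] at h
  simp only [add_zero, ← sub_eq_add_neg] at h
  simp only [Amat, Matrix.of_apply]
  linarith

/-- The rank-one update formula. -/
lemma det_Mmat (hpn : p = 2 * n + 1) (hp2 : p ≠ 2) :
    (Mmat p n).det = (Amat p n).det * (1 - ∑ j : Fin n, chi p (uu p n j)) := by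
  have h1 : Mmat p n = Amat p n *
      (1 - Matrix.replicateCol Unit (fun _ : Fin n => (1 : ℤ)) *
        Matrix.replicateRow Unit (fun k : Fin n => chi p (uu p n k))) := by
    ext j k
    rw [Matrix.mul_sub, Matrix.mul_one, Matrix.sub_apply, ← Matrix.mul_assoc]
    rw [Matrix.mul_apply]
    simp only [Matrix.mul_apply, Matrix.replicateCol_apply, Matrix.replicateRow_apply, mul_one,
      Finset.univ_unique, Finset.sum_singleton]
    rw [Amat_row_sum hpn hp2 j]
    simp only [Mmat, Amat, Matrix.of_apply, map_mul]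
    ring
  rw [h1, Matrix.det_mul]
  congr 1
  rw [Matrix.det_one_sub_mul_comm]
  rw [Matrix.det_unique]
  simp [Matrix.mul_apply]

end mats

end Pool.Agent.MP_4f0cf1_nt
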