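import Pool.Agent.MP_4f0cf1_nt.QField

set_option autoImplicit false
open Finset NumberField Module Ideal

namespace Pool.Agent.MP_4f0cf1_nt

section general
variable (K : Type*) [Field K] [NumberField K]

/-- The number of ideals of norm `n`. -/
noncomputable def cnt (n : ℕ) : ℕ := Nat.card {I : Ideal (𝓞 K) // absNorm I = n}

variable {K}

instance fin_norm (n : ℕ) : Finite {I : Ideal (𝓞 K) // absNorm I = n} :=
  (Ideal.finite_setOfPred_absNorm_eq (S := 𝓞 K) n)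

lemma cnt_one : cnt K 1 = 1 := by
  unfold cnt
  rw [Nat.card_eq_one_iff_unique]
  refine ⟨⟨?_⟩, ⟨⟨⊤, absNorm_top⟩⟩⟩
  rintro ⟨I, hI⟩ ⟨J, hJ⟩
  rw [absNorm_eq_one_iff] at hI hJ
  apply Subtype.ext
  simp only
  rw [hI, hJ]

omit [NumberField K] in
lemma sup_span_coprime {m n : ℕ} (h : m.Coprime n) :
    span {(m : 𝓞 K)} ⊔ span {(n : 𝓞 K)} = ⊤ := by
  rw [Ideal.eq_top_iff_one, Submodule.mem_sup]
  have h1 := Nat.gcd_eq_gcd_ab m n
  rw [h.gcd_eq_one] at h1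
  refine ⟨(m : 𝓞 K) * ((Nat.gcdA m n : ℤ) : 𝓞 K), ?_, (n : 𝓞 K) * ((Nat.gcdB m n : ℤ) : 𝓞 K), ?_, ?_⟩
  · exact Ideal.mul_mem_right _ _ (Ideal.mem_span_singleton_self _)
  · exact Ideal.mul_mem_right _ _ (Ideal.mem_span_singleton_self _)
  · have : ((1 : ℤ) : 𝓞 K) = ((m * Nat.gcdA m n + n * Nat.gcdB m n : ℤ) : 𝓞 K) := by
      rw [← h1]; simp
    push_cast at this
    exact this.symm

lemma natCast_mem_of_norm {I : Ideal (𝓞 K)} {n : ℕ} (h : absNorm I = n) : (n : 𝓞 K) ∈ I := by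
  rw [← h]; exact absNorm_mem I

lemma span_le_of_norm {I : Ideal (𝓞 K)} {n : ℕ} (h : absNorm I = n) : span {(n : 𝓞 K)} ≤ I := by
  rw [span_singleton_le_iff_mem]
  exact natCast_mem_of_norm h

lemma lemA {m n : ℕ} (h : m.Coprime n) {I : Ideal (𝓞 K)} (hI : absNorm I = m * n) :
    (I ⊔ span {(m : 𝓞 K)}) * (I ⊔ span {(n : 𝓞 K)}) = I := by
  apply le_antisymm
  · rw [Ideal.sup_mul, Ideal.mul_sup, Ideal.mul_sup]
    refine sup_le (sup_le mul_le_left mul_le_left) (sup_le mul_le_right ?_)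
    rw [span_singleton_mul_span_singleton, span_singleton_le_iff_mem]
    have := natCast_mem_of_norm hI
    push_cast at this
    exact this
  · calc I = I * (span {(m : 𝓞 K)} ⊔ span {(n : 𝓞 K)}) := by rw [sup_span_coprime h, Ideal.mul_top]
      _ = I * span {(m : 𝓞 K)} ⊔ I * span {(n : 𝓞 K)} := by rw [Ideal.mul_sup]
      _ ≤ _ := by
        apply sup_le
        · rw [mul_comm I]
          exact Ideal.mul_mono le_sup_right le_sup_left
        · exact Ideal.mul_mono le_sup_left le_sup_right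

lemma lemB {m n : ℕ} (hm : m ≠ 0) (hn : n ≠ 0) (h : m.Coprime n) {I : Ideal (𝓞 K)}
    (hI : absNorm I = m * n) :
    absNorm (I ⊔ span {(m : 𝓞 K)}) = m ∧ absNorm (I ⊔ span {(n : 𝓞 K)}) = n := by
  have h1 : absNorm (I ⊔ span {(m : 𝓞 K)}) * absNorm (I ⊔ span {(n : 𝓞 K)}) = m * n := by
    rw [← map_mul, lemA h hI, hI]
  have h2 : absNorm (I ⊔ span {(m : 𝓞 K)}) ∣ m ^ finrank ℤ (𝓞 K) := by
    rw [← absNorm_span_natCast]
    exact absNorm_dvd_absNorm_of_le le_sup_right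
  have h3 : absNorm (I ⊔ span {(n : 𝓞 K)}) ∣ n ^ finrank ℤ (𝓞 K) := by
    rw [← absNorm_span_natCast]
    exact absNorm_dvd_absNorm_of_le le_sup_right
  set a := absNorm (I ⊔ span {(m : 𝓞 K)})
  set b := absNorm (I ⊔ span {(n : 𝓞 K)})
  have ha : a.Coprime n := Nat.Coprime.coprime_dvd_left h2 (Nat.Coprime.pow_left _ h)
  have hb : b.Coprime m := Nat.Coprime.coprime_dvd_left h3 (Nat.Coprime.pow_left _ h.symm)
  have h4 : a ∣ m := ha.dvd_of_dvd_mul_right (h1 ▸ Dvd.intro _ rfl)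
  have h5 : b ∣ n := hb.dvd_of_dvd_mul_left (h1 ▸ Dvd.intro_left _ rfl)
  obtain ⟨c, hc⟩ := h4
  obtain ⟨d, hd⟩ := h5
  have h6 : a * b * 1 = a * b * (c * d) := by
    calc a * b * 1 = m * n := by rw [mul_one, h1]
      _ = (a * c) * (b * d) := by rw [← hc, ← hd]
      _ = _ := by ring
  have hab : a * b ≠ 0 := by rw [h1]; exact mul_ne_zero hm hn
  have h7 := mul_left_cancel₀ hab h6
  have hc1 : c = 1 := Nat.eq_one_of_mul_eq_one_right h7.symm
  have hd1 : d = 1 := Nat.eq_one_of_mul_eq_one_left h7.symm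
  rw [hc1, mul_one] at hc
  rw [hd1, mul_one] at hd
  exact ⟨hc.symm, hd.symm⟩

lemma lemC {m n : ℕ} (h : m.Coprime n) {I J : Ideal (𝓞 K)}
    (hI : absNorm I = m) (hJ : absNorm J = n) :
    (I * J) ⊔ span {(m : 𝓞 K)} = I := by
  apply le_antisymm
  · exact sup_le mul_le_left (span_le_of_norm hI)
  · calc I = I * (span {(m : 𝓞 K)} ⊔ span {(n : 𝓞 K)}) := by rw [sup_span_coprime h, Ideal.mul_top]
      _ = I * span {(m : 𝓞 K)} ⊔ I * span {(n : 𝓞 K)} := by rw [Ideal.mul_sup]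
      _ ≤ _ := by
        apply sup_le
        · exact le_trans mul_le_right le_sup_right
        · exact le_trans (Ideal.mul_mono le_rfl (span_le_of_norm hJ)) le_sup_left

lemma cnt_mul {m n : ℕ} (hm : m ≠ 0) (hn : n ≠ 0) (h : m.Coprime n) :
    cnt K (m * n) = cnt K m * cnt K n := by
  unfold cnt
  rw [← Nat.card_prod]
  apply Nat.card_congr
  refine ⟨fun I => (⟨I.1 ⊔ span {(m : 𝓞 K)}, (lemB hm hn h I.2).1⟩,
      ⟨I.1 ⊔ span {(n : 𝓞 K)}, (lemB hm hn h I.2).2⟩),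
    fun IJ => ⟨IJ.1.1 * IJ.2.1, by rw [map_mul, IJ.1.2, IJ.2.2]⟩, ?_, ?_⟩
  · rintro ⟨I, hI⟩
    apply Subtype.ext
    exact lemA h hI
  · rintro ⟨⟨I, hI⟩, ⟨J, hJ⟩⟩
    have h1 := lemC h hI hJ
    have h2 := lemC h.symm hJ hI
    rw [mul_comm] at h2
    refine Prod.ext (Subtype.ext h1) (Subtype.ext h2)

/-- Ideals divisible by `P`. -/
lemma cnt_shift {P : Ideal (𝓞 K)} {a : ℕ} (ha : a ≠ 0) (hP : absNorm P = a) (n : ℕ) :
    Nat.card {I : Ideal (𝓞 K) // absNorm I = a * n ∧ I ≤ P} = cnt K n := by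
  unfold cnt
  have hP0 : P ≠ ⊥ := by
    intro h
    rw [h, absNorm_bot] at hP
    exact ha hP.symm
  symm
  apply Nat.card_congr
  refine Equiv.ofBijective (fun J => ⟨P * J.1, by rw [map_mul, hP, J.2], mul_le_left⟩) ⟨?_, ?_⟩
  · rintro ⟨I, hI⟩ ⟨J, hJ⟩ h
    simp only [Subtype.mk.injEq] at h
    apply Subtype.ext
    exact mul_left_cancel₀ (by rwa [Ideal.zero_eq_bot]) h
  · rintro ⟨I, hI, hle⟩
    obtain ⟨J, hJ⟩ := Ideal.dvd_iff_le.mpr hle
    refine ⟨⟨J, ?_⟩, Subtype.ext hJ.symm⟩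
    rw [hJ, map_mul, hP] at hI
    exact Nat.eq_of_mul_eq_mul_left (Nat.pos_of_ne_zero ha) hI

/-- Maximal ideals above. -/
lemma exists_max {q : ℕ} {k : ℕ} (hq : q.Prime) {I : Ideal (𝓞 K)} (hI : absNorm I = q ^ (k + 1)) :
    ∃ M : Ideal (𝓞 K), M.IsMaximal ∧ I ≤ M ∧ (q : 𝓞 K) ∈ M := by
  have h1 : I ≠ ⊤ := by
    intro h
    rw [h, absNorm_top] at hI
    have : 1 < q ^ (k + 1) := Nat.one_lt_pow (by omega) hq.one_lt
    omega
  obtain ⟨M, hM, hle⟩ := Ideal.exists_le_maximal I h1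
  refine ⟨M, hM, hle, ?_⟩
  have h2 := hle (natCast_mem_of_norm hI)
  push_cast at h2
  exact hM.isPrime.mem_of_pow_mem _ h2

end general

end Pool.Agent.MP_4f0cf1_nt
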