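import Pool.Agent.MP_4f0cf1_nt.Ideals
import Pool.Agent.MP_4f0cf1_nt.DetB

set_option autoImplicit false
open Finset NumberField Module Ideal

namespace Pool.Agent.MP_4f0cf1_nt

lemma recip {p q : ℕ} [Fact p.Prime] [Fact q.Prime] (h4 : p % 4 = 3) (hq2 : q ≠ 2) :
    legendreSym q (-(p : ℤ)) = legendreSym p q := by
  have hp2 : p ≠ 2 := by omega
  have h1 : legendreSym q (-(p : ℤ)) = legendreSym q (-1) * legendreSym q p := by
    rw [← legendreSym.mul]; ring_nf
  rw [h1, legendreSym.at_neg_one hq2]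
  have hodd : q % 2 = 1 := (Nat.Prime.eq_two_or_odd (Fact.out : q.Prime)).resolve_left hq2
  have h2 : q % 4 = 1 ∨ q % 4 = 3 := by omega
  rcases h2 with h2 | h2
  · rw [ZMod.χ₄_nat_one_mod_four h2, one_mul,
      legendreSym.quadratic_reciprocity_one_mod_four h2 hp2]
  · rw [ZMod.χ₄_nat_three_mod_four h2, legendreSym.quadratic_reciprocity_three_mod_four h4 h2]
    ring

lemma chi_eq_legendre {p : ℕ} [Fact p.Prime] (q : ℕ) : chi p (q : ZMod p) = legendreSym p q := by
  unfold legendreSym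
  rw [Int.cast_natCast]

lemma root_iff {p q : ℕ} [Fact p.Prime] [Fact q.Prime] (hpq : q ≠ p) (m : ℕ)
    (hm : p = 4 * m + 3) :
    chi p (q : ZMod p) = 1 ↔ ∃ r : ℤ, (q : ℤ) ∣ r ^ 2 - r + (m + 1) := by
  have h4 : p % 4 = 3 := by omega
  have hp2 : p ≠ 2 := by omega
  by_cases hq2 : q = 2
  · subst hq2
    have h1 : chi p ((2 : ℕ) : ZMod p) = ZMod.χ₈ (p : ℕ) := by
      rw [Nat.cast_ofNat]; exact chi_two_mod8 hp2
    rw [h1, ZMod.χ₈_nat_eq_if_mod_eight, if_neg (by omega)]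
    constructor
    · intro h
      split_ifs at h with h8
      · refine ⟨0, ?_⟩
        have : m % 2 = 1 := by omega
        omega
    · rintro ⟨r, hr⟩
      have h2 : (2 : ℤ) ∣ r ^ 2 - r := by
        have := Int.even_mul_pred_self r
        rw [even_iff_two_dvd] at this
        have e : r * (r - 1) = r ^ 2 - r := by ring
        rwa [e] at this
      have h3 : (2 : ℤ) ∣ (m + 1) := by
        have := dvd_sub hr h2
        have e : r ^ 2 - r + ((m : ℤ) + 1) - (r ^ 2 - r) = m + 1 := by ring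
        rwa [Nat.cast_ofNat, e] at this
      rw [if_pos (by omega)]
  · rw [chi_eq_legendre, ← recip h4 hq2]
    have hp0 : ((-(p : ℤ) : ℤ) : ZMod q) ≠ 0 := by
      push_cast
      rw [neg_ne_zero]
      exact ZMod.prime_ne_zero q p hpq
    rw [legendreSym.eq_one_iff q hp0]
    have h2 : (2 : ZMod q) ≠ 0 := by
      have := ZMod.prime_ne_zero q 2 hq2
      exact_mod_cast this
    have hp : (p : ZMod q) = 4 * m + 3 := by rw [hm]; push_cast; ring
    constructor
    · rintro ⟨s, hs⟩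
      push_cast at hs
      obtain ⟨r, hr⟩ := ZMod.intCast_surjective ((s + 1) / 2)
      refine ⟨r, ?_⟩
      rw [← ZMod.intCast_zmod_eq_zero_iff_dvd]
      push_cast
      rw [hr]
      have h3 : (2 : ZMod q) * 2 * (((s + 1) / 2) ^ 2 - (s + 1) / 2 + (m + 1)) = 0 := by
        field_simp
        rw [hp] at hs
        linear_combination (-1 : ZMod q) * hs
      exact (mul_eq_zero.mp h3).resolve_left (mul_ne_zero h2 h2)
    · rintro ⟨r, hr⟩
      refine ⟨2 * r - 1, ?_⟩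
      rw [← ZMod.intCast_zmod_eq_zero_iff_dvd] at hr
      push_cast at hr ⊢
      rw [hp]
      linear_combination (-4 : ZMod q) * hr

namespace QData

variable {p : ℕ} {K : Type*} [Field K] [NumberField K] {α : K}

lemma finrank_int (D : QData p K α) : finrank ℤ (𝓞 K) = 2 := by
  rw [RingOfIntegers.rank, D.hK]

lemma norm_span_nat (D : QData p K α) (q : ℕ) : absNorm (span {(q : 𝓞 K)}) = q ^ 2 := by
  rw [absNorm_span_natCast, D.finrank_int]

omit [NumberField K] in
/-- In an ideal not the unit ideal containing `q`, an integer is in it iff divisible by `q`. -/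
lemma dvd_of_mem {q : ℕ} (hq : q.Prime) {M : Ideal (𝓞 K)} (hM : M ≠ ⊤) (hqM : (q : 𝓞 K) ∈ M)
    {z : ℤ} (hz : (z : 𝓞 K) ∈ M) : (q : ℤ) ∣ z := by
  by_contra h
  apply hM
  rw [Ideal.eq_top_iff_one]
  have h1 : IsCoprime (q : ℤ) z := by
    rw [Prime.coprime_iff_not_dvd (Nat.prime_iff_prime_int.mp hq)]
    exact h
  obtain ⟨a, b, hab⟩ := h1
  have h2 : (1 : 𝓞 K) = (a : 𝓞 K) * (q : 𝓞 K) + (b : 𝓞 K) * (z : 𝓞 K) := by
    have : ((1 : ℤ) : 𝓞 K) = ((a * q + b * z : ℤ) : 𝓞 K) := by rw [hab]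
    push_cast at this
    exact this
  rw [h2]
  exact Ideal.add_mem _ (Ideal.mul_mem_left _ _ hqM) (Ideal.mul_mem_left _ _ hz)

/-! ### ramified -/

lemma norm_al (D : QData p K α) : absNorm (span {D.al}) = p := by
  rw [absNorm_span_singleton]
  have h : ((Algebra.norm ℤ D.al : ℤ) : ℚ) = Algebra.norm ℚ (algebraMap (𝓞 K) K D.al) :=
    Algebra.coe_norm_int D.al
  have h2 := D.norm_eq 0 1
  rw [map_zero, map_one, zero_add, one_mul] at h2
  rw [D.al_coe', h2] at h
  have h3 : Algebra.norm ℤ D.al = (p : ℤ) := by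
    have : ((Algebra.norm ℤ D.al : ℤ) : ℚ) = ((p : ℤ) : ℚ) := by rw [h]; push_cast; ring
    exact_mod_cast this
  rw [h3, Int.natAbs_natCast]

lemma cnt_ram (D : QData p K α) (k : ℕ) : cnt K (p ^ k) = 1 := by
  induction k with
  | zero => rw [pow_zero, cnt_one]
  | succ k ih =>
    have hp := D.hp
    have h := cnt_shift hp.ne_zero D.norm_al (p ^ k)
    rw [ih] at h
    refine Eq.trans ?_ h
    unfold cnt
    apply Nat.card_congr
    apply Equiv.subtypeEquivRight
    intro I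
    constructor
    · intro hI
      refine ⟨by rw [hI, pow_succ, mul_comm], ?_⟩
      obtain ⟨M, hM, hle, hpM⟩ := exists_max hp hI
      have h1 : D.al ∈ M := by
        have : D.al ^ 2 ∈ M := by
          rw [D.al_sq]
          exact M.neg_mem hpM
        exact hM.isPrime.mem_of_pow_mem _ this
      have h2 : span {D.al} ≤ M := by rwa [span_singleton_le_iff_mem]
      have h3 : (span {D.al}).IsPrime := by
        apply isPrime_of_irreducible_absNorm
        rw [D.norm_al]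
        exact hp
      have h4 : (span {D.al} : Ideal (𝓞 K)) ≠ ⊥ := by
        intro h
        have := D.norm_al
        rw [h, absNorm_bot] at this
        exact hp.ne_zero this.symm
      have h5 : (span {D.al}).IsMaximal := h3.isMaximal h4
      have h6 : span {D.al} = M := h5.eq_of_le hM.ne_top h2
      rw [h6]
      exact hle
    · rintro ⟨hI, _⟩
      rw [hI, pow_succ, mul_comm]

/-! ### inert -/

lemma inert_max (D : QData p K α) {m : ℕ} (hm : p = 4 * m + 3) {q : ℕ} (hq : q.Prime)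
    (hroot : ¬ ∃ r : ℤ, (q : ℤ) ∣ r ^ 2 - r + (m + 1)) :
    (span {(q : 𝓞 K)}).IsMaximal := by
  have hN := D.norm_span_nat q
  have h1 : (span {(q : 𝓞 K)}) ≠ ⊤ := by
    intro h
    rw [h, absNorm_top] at hN
    have : 1 < q ^ 2 := Nat.one_lt_pow (by norm_num) hq.one_lt
    omega
  obtain ⟨M, hM, hle⟩ := Ideal.exists_le_maximal _ h1
  have hqM : (q : 𝓞 K) ∈ M := (span_singleton_le_iff_mem _).mp hle
  have h2 : absNorm M ∣ q ^ 2 := by
    rw [← hN]
    exact absNorm_dvd_absNorm_of_le hle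
  rw [Nat.dvd_prime_pow hq] at h2
  obtain ⟨i, hi, hMi⟩ := h2
  interval_cases i
  · rw [pow_zero, absNorm_eq_one_iff] at hMi
    exact absurd hMi hM.ne_top
  · exfalso
    rw [pow_one] at hMi
    have : Fact q.Prime := ⟨hq⟩
    have h3 : Nat.card (𝓞 K ⧸ M) = q := by
      rw [← hMi, absNorm_apply, Submodule.cardQuot_apply]
    have h4 : (1 : 𝓞 K ⧸ M) ≠ 0 := by
      have : Nontrivial (𝓞 K ⧸ M) := Ideal.Quotient.nontrivial_iff.mpr hM.ne_top
      exact one_ne_zero
    have h5 := mem_zmultiples_of_prime_card (g' := Ideal.Quotient.mk M D.om) h3 h4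
    rw [AddSubgroup.mem_zmultiples_iff] at h5
    obtain ⟨r, hr⟩ := h5
    have h6 : D.om - (r : 𝓞 K) ∈ M := by
      rw [← Ideal.Quotient.eq_zero_iff_mem, map_sub, ← hr]
      simp
    apply hroot
    refine ⟨r, dvd_of_mem hq hM.ne_top hqM ?_⟩
    have h7 := D.om_rel m hm
    have h8 : ((r ^ 2 - r + (m + 1) : ℤ) : 𝓞 K) =
        (1 - (r : 𝓞 K) - D.om) * (D.om - r) := by
      push_cast
      linear_combination h7
    rw [h8]
    exact Ideal.mul_mem_left _ _ h6
  · have h3 : span {(q : 𝓞 K)} = M := by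
      obtain ⟨J, hJ⟩ := Ideal.dvd_iff_le.mpr hle
      have h4 : absNorm J = 1 := by
        have h5 := congrArg absNorm hJ
        rw [map_mul, hN, hMi] at h5
        have : 0 < q ^ 2 := by have := hq.pos; positivity
        have h6 : q ^ 2 * 1 = q ^ 2 * absNorm J := by rw [mul_one]; exact h5
        exact (Nat.eq_of_mul_eq_mul_left this h6).symm
      rw [absNorm_eq_one_iff] at h4
      rw [hJ, h4, Ideal.mul_top]
    rw [h3]
    exact hM

lemma inert_le (_D : QData p K α) {q : ℕ} (hq : q.Prime)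
    (hmax : (span {(q : 𝓞 K)}).IsMaximal) {I : Ideal (𝓞 K)} {k : ℕ} (hI : absNorm I = q ^ (k + 1)) :
    I ≤ span {(q : 𝓞 K)} := by
  obtain ⟨M, hM, hle, hqM⟩ := exists_max hq hI
  have h2 : span {(q : 𝓞 K)} ≤ M := by rwa [span_singleton_le_iff_mem]
  have h6 := hmax.eq_of_le hM.ne_top h2
  rw [h6]
  exact hle

lemma cnt_inert_one (D : QData p K α) {q : ℕ} (hq : q.Prime)
    (hmax : (span {(q : 𝓞 K)}).IsMaximal) : cnt K q = 0 := by
  unfold cnt
  rw [Nat.card_eq_zero]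
  left
  constructor
  rintro ⟨I, hI⟩
  have h1 := D.inert_le hq hmax (k := 0) (I := I) (by rw [hI]; ring)
  have h2 := absNorm_dvd_absNorm_of_le h1
  rw [D.norm_span_nat, hI] at h2
  have h3 := Nat.le_of_dvd hq.pos h2
  have := hq.two_le
  nlinarith

lemma cnt_inert_add_two (D : QData p K α) {q : ℕ} (hq : q.Prime)
    (hmax : (span {(q : 𝓞 K)}).IsMaximal) (k : ℕ) : cnt K (q ^ (k + 2)) = cnt K (q ^ k) := by
  have hq2 : q ^ 2 ≠ 0 := pow_ne_zero _ hq.ne_zero
  rw [← cnt_shift hq2 (D.norm_span_nat q) (q ^ k)]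
  unfold cnt
  apply Nat.card_congr
  apply Equiv.subtypeEquivRight
  intro I
  constructor
  · intro hI
    exact ⟨by rw [hI]; ring, D.inert_le hq hmax (k := k + 1) hI⟩
  · rintro ⟨hI, _⟩
    rw [hI]; ring

lemma cnt_inert (D : QData p K α) {q : ℕ} (hq : q.Prime)
    (hmax : (span {(q : 𝓞 K)}).IsMaximal) (k : ℕ) :
    (cnt K (q ^ k) : ℤ) = ∑ i ∈ range (k + 1), (-1 : ℤ) ^ i := by
  induction k using Nat.strong_induction_on with
  | _ k ih =>
    match k, ih with
    | 0, _ => simp [cnt_one]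
    | 1, _ =>
      rw [pow_one, D.cnt_inert_one hq hmax]
      simp [Finset.sum_range_succ]
    | (k + 2), ih =>
      rw [D.cnt_inert_add_two hq hmax, ih k (by omega)]
      rw [Finset.sum_range_succ _ (k + 2), Finset.sum_range_succ _ (k + 1)]
      ring

/-! ### split -/

lemma split_exists (D : QData p K α) {m : ℕ} (hm : p = 4 * m + 3) {q : ℕ} (hq : q.Prime)
    (hqp : q ≠ p) {r : ℤ} (hr : (q : ℤ) ∣ r ^ 2 - r + (m + 1)) :
    ∃ P₁ P₂ : Ideal (𝓞 K), P₁ ≠ P₂ ∧ absNorm P₁ = q ∧ absNorm P₂ = q ∧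
      P₁ * P₂ = span {(q : 𝓞 K)} := by
  have hqz : Prime (q : ℤ) := Nat.prime_iff_prime_int.mp hq
  have hrel := D.om_rel m hm
  -- `q` does not divide `2r-1`
  have hnd : ¬ (q : ℤ) ∣ 2 * r - 1 := by
    intro h
    have h1 : (q : ℤ) ∣ p := by
      have h2 : (q : ℤ) ∣ 4 * (r ^ 2 - r + (m + 1)) - (2 * r - 1) * (2 * r - 1) :=
        dvd_sub (Dvd.dvd.mul_left hr _) (Dvd.dvd.mul_left h _)
      have e : 4 * (r ^ 2 - r + (m + 1)) - (2 * r - 1) * (2 * r - 1) = (p : ℤ) := by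
        rw [hm]; push_cast; ring
      rwa [e] at h2
    have h2 : q ∣ p := by exact_mod_cast h1
    exact hqp ((Nat.prime_dvd_prime_iff_eq hq D.hp).mp h2)
  -- key: if `ω - s ∈ (q)` then `q ∣ 2s-1`
  have htr : ∀ s : ℤ, D.om - (s : 𝓞 K) ∈ span {(q : 𝓞 K)} → (q : ℤ) ∣ 2 * s - 1 := by
    intro s hs
    rw [mem_span_singleton'] at hs
    obtain ⟨β, hβ⟩ := hs
    have h1 := congrArg (Algebra.trace ℤ (𝓞 K)) hβ
    have e1 : β * (q : 𝓞 K) = (q : ℤ) • β := by rw [zsmul_eq_mul, mul_comm]; simp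
    have e2 : D.om - (s : 𝓞 K) = D.om - s • (1 : 𝓞 K) := by rw [zsmul_eq_mul, mul_one]
    rw [e1, e2, map_sub, map_smul, map_smul, D.trace_om, D.trace_one] at h1
    refine ⟨- Algebra.trace ℤ (𝓞 K) β, ?_⟩
    simp only [smul_eq_mul] at h1
    linear_combination h1
  set P₁ : Ideal (𝓞 K) := span {(q : 𝓞 K), D.om - (r : 𝓞 K)} with hP1
  set P₂ : Ideal (𝓞 K) := span {(q : 𝓞 K), D.om - ((1 - r : ℤ) : 𝓞 K)} with hP2
  have hq1 : (q : 𝓞 K) ∈ P₁ := Ideal.subset_span (by simp)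
  have hq2 : (q : 𝓞 K) ∈ P₂ := Ideal.subset_span (by simp)
  have ho1 : D.om - (r : 𝓞 K) ∈ P₁ := Ideal.subset_span (by simp)
  have ho2 : D.om - ((1 - r : ℤ) : 𝓞 K) ∈ P₂ := Ideal.subset_span (by simp)
  have hprod : P₁ * P₂ = span {(q : 𝓞 K)} := by
    apply le_antisymm
    · rw [hP1, hP2, span_pair_mul_span_pair, span_le]
      intro x hx
      simp only [Set.mem_insert_iff, Set.mem_singleton_iff] at hx
      rw [SetLike.mem_coe, mem_span_singleton]
      rcases hx with rfl | rfl | rfl | rfl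
      · exact Dvd.intro _ rfl
      · exact Dvd.intro _ rfl
      · exact Dvd.intro_left _ rfl
      · obtain ⟨c, hc⟩ := hr
        refine ⟨-(c : 𝓞 K), ?_⟩
        have hc' : (r : 𝓞 K) ^ 2 - r + (m + 1) = q * c := by exact_mod_cast congrArg (Int.cast : ℤ → 𝓞 K) hc
        push_cast
        linear_combination hrel - hc'
    · rw [span_singleton_le_iff_mem]
      have hcop : IsCoprime (q : ℤ) (2 * r - 1) := by
        rw [Prime.coprime_iff_not_dvd hqz]
        exact hnd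
      obtain ⟨a, b, hab⟩ := hcop
      have hab' : (a : 𝓞 K) * q + b * (2 * r - 1) = 1 := by
        exact_mod_cast congrArg (Int.cast : ℤ → 𝓞 K) hab
      have e : (q : 𝓞 K) = a * (q * q) + (b * (q * (D.om - ((1 - r : ℤ) : 𝓞 K))) -
          b * ((D.om - (r : 𝓞 K)) * q)) := by
        push_cast
        linear_combination (-(q : 𝓞 K)) * hab'
      rw [e]
      exact Ideal.add_mem _ (Ideal.mul_mem_left _ _ (Ideal.mul_mem_mul hq1 hq2))
        (Ideal.sub_mem _ (Ideal.mul_mem_left _ _ (Ideal.mul_mem_mul hq1 ho2))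
          (Ideal.mul_mem_left _ _ (Ideal.mul_mem_mul ho1 hq2)))
  have hne1 : P₁ ≠ ⊤ := by
    intro h
    rw [h, Ideal.top_mul] at hprod
    rw [hprod] at ho2
    have := htr _ ho2
    apply hnd
    have e : 2 * (1 - r) - 1 = -(2 * r - 1) := by ring
    rw [e] at this
    exact (dvd_neg).mp this
  have hne2 : P₂ ≠ ⊤ := by
    intro h
    rw [h, Ideal.mul_top] at hprod
    rw [hprod] at ho1
    exact hnd (htr _ ho1)
  have hN : absNorm P₁ * absNorm P₂ = q ^ 2 := by
    rw [← map_mul, hprod, D.norm_span_nat]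
  have hNN := (hq.mul_eq_prime_sq_iff (by rwa [Ne, absNorm_eq_one_iff])
    (by rwa [Ne, absNorm_eq_one_iff])).mp hN
  refine ⟨P₁, P₂, ?_, hNN.1, hNN.2, hprod⟩
  intro h
  apply hnd
  rw [← h] at ho2
  apply dvd_of_mem hq hne1 hq1
  have e : ((2 * r - 1 : ℤ) : 𝓞 K) = (D.om - ((1 - r : ℤ) : 𝓞 K)) - (D.om - (r : 𝓞 K)) := by
    push_cast; ring
  rw [e]
  exact Ideal.sub_mem _ ho2 ho1

lemma isMax_of_norm {q : ℕ} (hq : q.Prime) {P : Ideal (𝓞 K)} (hP : absNorm P = q) : P.IsMaximal := by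
  have h3 : P.IsPrime := by
    apply isPrime_of_irreducible_absNorm
    rw [hP]
    exact hq
  apply h3.isMaximal
  intro h
  rw [h, absNorm_bot] at hP
  exact hq.ne_zero hP.symm

lemma split_pow {q : ℕ} (hq : q.Prime) {P₁ P₂ : Ideal (𝓞 K)}
    (h1 : absNorm P₁ = q) (h2 : absNorm P₂ = q) (hprod : P₁ * P₂ = span {(q : 𝓞 K)})
    (k : ℕ) : ∀ I : Ideal (𝓞 K), absNorm I = q ^ k → ¬ I ≤ P₁ → I = P₂ ^ k := by
  induction k with
  | zero =>
    intro I hI _
    rw [pow_zero, absNorm_eq_one_iff] at hI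
    rw [hI, pow_zero, Ideal.one_eq_top]
  | succ k ih =>
    intro I hI hnle
    obtain ⟨M, hM, hle, hqM⟩ := exists_max hq hI
    have hle2 : P₁ * P₂ ≤ M := by rwa [hprod, span_singleton_le_iff_mem]
    have h3 := (isMax_of_norm hq h1)
    have h4 := (isMax_of_norm hq h2)
    rcases (hM.isPrime.mul_le).mp hle2 with h | h
    · exfalso
      apply hnle
      rw [h3.eq_of_le hM.ne_top h]
      exact hle
    · have h5 := h4.eq_of_le hM.ne_top h
      rw [← h5] at hle
      obtain ⟨J, hJ⟩ := Ideal.dvd_iff_le.mpr hle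
      have h6 : absNorm J = q ^ k := by
        rw [hJ, map_mul, h2, pow_succ, mul_comm (q ^ k)] at hI
        exact Nat.eq_of_mul_eq_mul_left hq.pos hI
      have h7 : ¬ J ≤ P₁ := by
        intro h
        apply hnle
        rw [hJ]
        exact le_trans mul_le_right h
      rw [hJ, ih J h6 h7, pow_succ, mul_comm]

lemma cnt_split {q : ℕ} (hq : q.Prime) {P₁ P₂ : Ideal (𝓞 K)} (hne : P₁ ≠ P₂)
    (h1 : absNorm P₁ = q) (h2 : absNorm P₂ = q) (hprod : P₁ * P₂ = span {(q : 𝓞 K)})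
    (k : ℕ) : cnt K (q ^ k) = k + 1 := by
  have h3 := (isMax_of_norm hq h1)
  have h4 := (isMax_of_norm hq h2)
  induction k with
  | zero => rw [pow_zero, cnt_one]
  | succ k ih =>
    have hs := cnt_shift hq.ne_zero h1 (q ^ k)
    rw [ih] at hs
    have e : cnt K (q ^ (k + 1)) =
        Nat.card {I : Ideal (𝓞 K) // absNorm I = q * q ^ k ∧ I ≤ P₁} +
        Nat.card {I : Ideal (𝓞 K) // absNorm I = q ^ (k + 1) ∧ ¬ I ≤ P₁} := by
      have h5 := (Ideal.finite_setOfPred_absNorm_eq (S := 𝓞 K) (q ^ (k + 1)))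
      have e1 : cnt K (q ^ (k + 1)) = Set.ncard {I : Ideal (𝓞 K) | absNorm I = q ^ (k + 1)} := rfl
      have e2 : Nat.card {I : Ideal (𝓞 K) // absNorm I = q * q ^ k ∧ I ≤ P₁} =
        Set.ncard {I : Ideal (𝓞 K) | absNorm I = q * q ^ k ∧ I ≤ P₁} := rfl
      have e3 : Nat.card {I : Ideal (𝓞 K) // absNorm I = q ^ (k + 1) ∧ ¬ I ≤ P₁} =
        Set.ncard {I : Ideal (𝓞 K) | absNorm I = q ^ (k + 1) ∧ ¬ I ≤ P₁} := rfl
      have d1 : Disjoint {I : Ideal (𝓞 K) | absNorm I = q * q ^ k ∧ I ≤ P₁}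
          {I : Ideal (𝓞 K) | absNorm I = q ^ (k + 1) ∧ ¬ I ≤ P₁} := by
        rw [Set.disjoint_left]
        rintro I ⟨_, ha⟩ ⟨_, hb⟩
        exact hb ha
      have d2 : {I : Ideal (𝓞 K) | absNorm I = q * q ^ k ∧ I ≤ P₁}.Finite := by
        apply h5.subset
        rintro I ⟨ha, _⟩
        have : q ^ (k + 1) = q * q ^ k := by ring
        rw [← this] at ha
        exact ha
      have d3 : {I : Ideal (𝓞 K) | absNorm I = q ^ (k + 1) ∧ ¬ I ≤ P₁}.Finite := by
        apply h5.subset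
        rintro I ⟨ha, _⟩
        exact ha
      rw [e1, e2, e3, ← Set.ncard_union_eq d1 d2 d3]
      congr 1
      ext I
      have : q ^ (k + 1) = q * q ^ k := by ring
      simp only [this, Set.mem_ofPred_eq, Set.mem_union]
      tauto
    rw [e, hs]
    congr 1
    rw [Nat.card_eq_one_iff_unique]
    refine ⟨⟨?_⟩, ⟨⟨P₂ ^ (k + 1), ?_, ?_⟩⟩⟩
    · rintro ⟨I, hI, hI'⟩ ⟨J, hJ, hJ'⟩
      apply Subtype.ext
      simp only
      rw [split_pow hq h1 h2 hprod _ I hI hI', split_pow hq h1 h2 hprod _ J hJ hJ']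
    · rw [map_pow, h2]
    · intro h
      have h5 := h3.isPrime.le_of_pow_le h
      exact hne (h4.eq_of_le h3.ne_top h5).symm

end QData

end Pool.Agent.MP_4f0cf1_nt
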