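import Mathlib

set_option autoImplicit false
open Finset NumberField Module

namespace Pool.Agent.MP_4f0cf1_nt

/-- `K = ℚ(√-p)`, `α² = -p`. -/
structure QData (p : ℕ) (K : Type*) [Field K] [NumberField K] (α : K) : Prop where
  hp : p.Prime
  h4 : p % 4 = 3
  hp3 : 3 < p
  hK : finrank ℚ K = 2
  hα : α ^ 2 = -(p : K)

lemma coe_trace' {K : Type*} [Field K] [NumberField K] (x : 𝓞 K) :
    ((Algebra.trace ℤ (𝓞 K) x : ℤ) : ℚ) = Algebra.trace ℚ K (algebraMap (𝓞 K) K x) :=
  Algebra.coe_trace_int x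

lemma ext' {K : Type*} [Field K] [NumberField K] {x y : 𝓞 K}
    (h : algebraMap (𝓞 K) K x = algebraMap (𝓞 K) K y) : x = y := RingOfIntegers.ext h

namespace QData

variable {p : ℕ} {K : Type*} [Field K] [NumberField K] {α : K}

lemma not_rat (D : QData p K α) (q : ℚ) : (algebraMap ℚ K q) ≠ α := by
  intro h
  have h1 := D.hα
  rw [← h, ← map_pow] at h1
  have h2 : algebraMap ℚ K (q ^ 2) = algebraMap ℚ K (-(p : ℚ)) := by
    rw [h1]; simp
  have h3 := (algebraMap ℚ K).injective h2
  have h4 : (0 : ℚ) < p := by exact_mod_cast D.hp.pos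
  nlinarith [sq_nonneg q]

lemma linInd (D : QData p K α) : LinearIndependent ℚ ![(1 : K), α] := by
  rw [LinearIndependent.pair_iff]
  intro s t h
  by_cases ht : t = 0
  · subst ht
    simp only [zero_smul, add_zero] at h
    rcases smul_eq_zero.mp h with h | h
    · exact ⟨h, rfl⟩
    · exact absurd h one_ne_zero
  · exfalso
    apply D.not_rat (-s / t)
    have ht' : algebraMap ℚ K t ≠ 0 := by
      rw [Ne, map_eq_zero]; exact ht
    rw [map_div₀, div_eq_iff ht', map_neg]
    rw [Algebra.smul_def, Algebra.smul_def, mul_one] at h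
    linear_combination -h

/-- The basis `1, α`. -/
noncomputable def bas (D : QData p K α) : Basis (Fin 2) ℚ K :=
  basisOfLinearIndependentOfCardEqFinrank D.linInd (by simp [D.hK])

lemma bas_coe (D : QData p K α) : ⇑D.bas = ![(1 : K), α] := by
  unfold bas
  rw [coe_basisOfLinearIndependentOfCardEqFinrank]

lemma exists_coord (D : QData p K α) (z : K) :
    ∃ a b : ℚ, z = algebraMap ℚ K a + algebraMap ℚ K b * α := by
  refine ⟨D.bas.repr z 0, D.bas.repr z 1, ?_⟩
  have h := D.bas.sum_repr z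
  rw [Fin.sum_univ_two, D.bas_coe] at h
  simp only [Matrix.cons_val_zero, Matrix.cons_val_one, Algebra.smul_def,
    mul_one] at h
  exact h.symm

lemma repr_eq (D : QData p K α) (a b : ℚ) :
    D.bas.repr (algebraMap ℚ K a + algebraMap ℚ K b * α) 0 = a ∧
    D.bas.repr (algebraMap ℚ K a + algebraMap ℚ K b * α) 1 = b := by
  have h : algebraMap ℚ K a + algebraMap ℚ K b * α = a • D.bas 0 + b • D.bas 1 := by
    rw [D.bas_coe]
    simp only [Matrix.cons_val_zero, Matrix.cons_val_one, Algebra.smul_def, mul_one]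
  rw [h]
  simp only [map_add, map_smul, Basis.repr_self, Finsupp.smul_single, Finsupp.add_apply]
  constructor <;> simp

lemma mat_eq (D : QData p K α) (a b : ℚ) :
    Algebra.leftMulMatrix D.bas (algebraMap ℚ K a + algebraMap ℚ K b * α) =
      !![a, -(p * b); b, a] := by
  have hα := D.hα
  have e0 : (algebraMap ℚ K a + algebraMap ℚ K b * α) * D.bas 0 =
    algebraMap ℚ K a + algebraMap ℚ K b * α := by
    rw [D.bas_coe]; simp
  have e1 : (algebraMap ℚ K a + algebraMap ℚ K b * α) * D.bas 1 =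
    algebraMap ℚ K (-(p * b)) + algebraMap ℚ K a * α := by
    rw [D.bas_coe]
    simp only [Matrix.cons_val_one, map_neg, map_mul, map_natCast]
    simp only [Matrix.cons_val_fin_one]
    linear_combination (algebraMap ℚ K b) * hα
  ext i j
  fin_cases i <;> fin_cases j
  · change Algebra.leftMulMatrix D.bas _ 0 0 = _
    rw [Algebra.leftMulMatrix_eq_repr_mul, e0, (D.repr_eq _ _).1]; rfl
  · change Algebra.leftMulMatrix D.bas _ 0 1 = _
    rw [Algebra.leftMulMatrix_eq_repr_mul, e1, (D.repr_eq _ _).1]; rfl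
  · change Algebra.leftMulMatrix D.bas _ 1 0 = _
    rw [Algebra.leftMulMatrix_eq_repr_mul, e0, (D.repr_eq _ _).2]; rfl
  · change Algebra.leftMulMatrix D.bas _ 1 1 = _
    rw [Algebra.leftMulMatrix_eq_repr_mul, e1, (D.repr_eq _ _).2]; rfl

lemma trace_eq (D : QData p K α) (a b : ℚ) :
    Algebra.trace ℚ K (algebraMap ℚ K a + algebraMap ℚ K b * α) = 2 * a := by
  rw [Algebra.trace_eq_matrix_trace D.bas, D.mat_eq, Matrix.trace_fin_two]
  simp; ring

lemma norm_eq (D : QData p K α) (a b : ℚ) :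
    Algebra.norm ℚ (algebraMap ℚ K a + algebraMap ℚ K b * α) = a ^ 2 + p * b ^ 2 := by
  rw [Algebra.norm_eq_matrix_det D.bas, D.mat_eq, Matrix.det_fin_two]
  simp; ring

/-! ### Places -/

lemma no_real (D : QData p K α) (w : InfinitePlace K) : ¬ w.IsReal := by
  intro h
  rw [InfinitePlace.isReal_iff] at h
  have h1 : star (w.embedding α) = w.embedding α := by
    have h2 : ComplexEmbedding.conjugate w.embedding = w.embedding := h
    have h3 := RingHom.congr_fun h2 α
    rwa [ComplexEmbedding.conjugate_coe_eq] at h3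
  have h2 : (w.embedding α) ^ 2 = -(p : ℂ) := by
    rw [← map_pow, D.hα]; simp
  have h3 := Complex.conj_eq_iff_real.mp h1
  obtain ⟨r, hr⟩ := h3
  rw [hr] at h2
  have h4 : r ^ 2 = -(p : ℝ) := by exact_mod_cast h2
  have h5 : (0 : ℝ) < p := by exact_mod_cast D.hp.pos
  nlinarith [sq_nonneg r]

lemma nrReal (D : QData p K α) : InfinitePlace.nrRealPlaces K = 0 := by
  rw [NumberField.nrRealPlaces_eq_zero_iff]
  constructor
  intro w
  exact InfinitePlace.not_isReal_iff_isComplex.mp (D.no_real w)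

lemma nrComplex (D : QData p K α) : InfinitePlace.nrComplexPlaces K = 1 := by
  have h := InfinitePlace.card_add_two_mul_card_eq_rank K
  rw [D.nrReal, D.hK] at h
  omega

lemma rank_zero (D : QData p K α) : Units.rank K = 0 := by
  unfold Units.rank
  rw [InfinitePlace.card_eq_nrRealPlaces_add_nrComplexPlaces, D.nrReal, D.nrComplex]

lemma regulator_one (D : QData p K α) : Units.regulator K = 1 := by
  classical
  rw [Units.regulator_eq_det']
  have h : IsEmpty {w : InfinitePlace K // w ≠ Units.dirichletUnitTheorem.w₀} := by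
    have h1 := Units.equivFinRank K
    rw [D.rank_zero] at h1
    exact h1.symm.isEmpty
  rw [Matrix.det_isEmpty]
  simp

/-! ### Integrality -/

lemma isIntegral_α (D : QData p K α) : IsIntegral ℤ α := by
  refine ⟨Polynomial.X ^ 2 + Polynomial.C (p : ℤ), ?_, ?_⟩
  · exact Polynomial.monic_X_pow_add_C _ (by norm_num)
  · simp [D.hα]

lemma quarter (D : QData p K α) : ∃ m : ℕ, p = 4 * m + 3 := ⟨p / 4, by have := D.h4; omega⟩

lemma isIntegral_ω (D : QData p K α) : IsIntegral ℤ ((1 + α) / 2) := by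
  obtain ⟨m, hm⟩ := D.quarter
  refine ⟨Polynomial.X ^ 2 + (-Polynomial.X + Polynomial.C ((m : ℤ) + 1)), ?_, ?_⟩
  · apply Polynomial.monic_X_pow_add
    compute_degree!
  · have h := D.hα
    have hm' : (p : K) = 4 * m + 3 := by rw [hm]; push_cast; ring
    rw [hm'] at h
    simp only [Polynomial.eval₂_add, Polynomial.eval₂_X_pow, Polynomial.eval₂_neg,
      Polynomial.eval₂_X, Polynomial.eval₂_C]
    simp only [map_add, map_natCast, map_one]
    field_simp
    linear_combination h

/-- `ω = (1 + α)/2` -/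
noncomputable def om (D : QData p K α) : 𝓞 K := ⟨(1 + α) / 2, D.isIntegral_ω⟩

/-- `√-p` -/
noncomputable def al (D : QData p K α) : 𝓞 K := ⟨α, D.isIntegral_α⟩

@[simp] lemma om_coe (D : QData p K α) : (D.om : K) = (1 + α) / 2 := rfl
@[simp] lemma al_coe (D : QData p K α) : (D.al : K) = α := rfl
lemma om_coe' (D : QData p K α) : algebraMap (𝓞 K) K D.om = (1 + α) / 2 := rfl
lemma al_coe' (D : QData p K α) : algebraMap (𝓞 K) K D.al = α := rfl

lemma al_sq (D : QData p K α) : D.al ^ 2 = -(p : 𝓞 K) := by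
  apply ext'
  simp [D.hα]

lemma two_om (D : QData p K α) : 2 * D.om = 1 + D.al := by
  apply ext'
  rw [map_mul, map_add, map_ofNat, map_one, D.om_coe', D.al_coe']
  field_simp

lemma om_rel (D : QData p K α) (m : ℕ) (hm : p = 4 * m + 3) :
    D.om ^ 2 - D.om + ((m : 𝓞 K) + 1) = 0 := by
  apply ext'
  have h := D.hα
  have hm' : (p : K) = 4 * m + 3 := by rw [hm]; push_cast; ring
  rw [hm'] at h
  simp
  field_simp
  linear_combination h

lemma trace_one (_D : QData p K α) : Algebra.trace ℤ (𝓞 K) 1 = 2 := by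
  have h := coe_trace' (K := K) (1 : 𝓞 K)
  have h2 := _D.trace_eq 1 0
  rw [map_one, map_zero, zero_mul, add_zero, mul_one] at h2
  rw [map_one (algebraMap (𝓞 K) K), h2] at h
  exact_mod_cast h

lemma trace_om (D : QData p K α) : Algebra.trace ℤ (𝓞 K) D.om = 1 := by
  have h := coe_trace' (K := K) D.om
  have h2 := D.trace_eq (1/2) (1/2)
  rw [D.om_coe'] at h
  have h3 : (algebraMap ℚ K (1/2) + algebraMap ℚ K (1/2) * α) = (1 + α) / 2 := by
    simp only [map_div₀, map_one, map_ofNat]; ring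
  rw [h3] at h2
  rw [h2] at h
  have h4 : ((Algebra.trace ℤ (𝓞 K) D.om : ℤ) : ℚ) = 1 := by rw [h]; norm_num
  exact_mod_cast h4

lemma discr_eq (D : QData p K α) : discr K = -(p : ℤ) := by
  classical
  obtain ⟨m, hm⟩ := D.quarter
  have hcard : Fintype.card (Free.ChooseBasisIndex ℤ (𝓞 K)) = 2 := by
    rw [← Module.finrank_eq_card_chooseBasisIndex, RingOfIntegers.rank, D.hK]
  let e : Free.ChooseBasisIndex ℤ (𝓞 K) ≃ Fin 2 := Fintype.equivFinOfCardEq hcard
  let b : Basis (Fin 2) ℤ (𝓞 K) := (RingOfIntegers.basis K).reindex e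
  have h1 : Algebra.discr ℤ b = discr K := discr_eq_discr K b
  let v : Fin 2 → 𝓞 K := ![1, D.om]
  let P : Matrix (Fin 2) (Fin 2) ℤ := Matrix.of fun i j => b.repr (v j) i
  have h2 : v = Matrix.vecMul b (P.map (algebraMap ℤ (𝓞 K))) := by
    ext j
    have := b.sum_repr (v j)
    conv_lhs => rw [← this]
    simp only [Matrix.vecMul, dotProduct, Matrix.map_apply, P, Matrix.of_apply]
    congr 1
    apply Finset.sum_congr rfl
    intro i _
    rw [zsmul_eq_mul, mul_comm]
    rfl
  have h3 : Algebra.discr ℤ v = -(p : ℤ) := by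
    have e2 : Algebra.trace ℤ (𝓞 K) (D.om * D.om) = -(2 * m + 1) := by
      have h := D.om_rel m hm
      have h4 : D.om * D.om = D.om - ((m : ℤ) + 1 : ℤ) • (1 : 𝓞 K) := by
        rw [zsmul_eq_mul]; push_cast
        linear_combination h
      rw [h4, map_sub, map_smul, D.trace_om, D.trace_one, smul_eq_mul]
      ring
    rw [Algebra.discr_def, Matrix.det_fin_two]
    simp only [Algebra.traceMatrix_apply, Algebra.traceForm_apply, v, Matrix.cons_val_zero,
      Matrix.cons_val_one, one_mul, mul_one]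
    rw [D.trace_one, D.trace_om, e2, hm]
    push_cast
    ring
  rw [h2, Algebra.discr_of_matrix_vecMul, h1] at h3
  have h5 : P.det ^ 2 ∣ (p : ℤ) := ⟨- discr K, by linear_combination h3⟩
  have h6 : IsUnit P.det := by
    have hpp : Prime (p : ℤ) := Nat.prime_iff_prime_int.mp D.hp
    have := hpp.squarefree (P.det) (by rw [← sq]; exact h5)
    exact this
  have h7 : P.det ^ 2 = 1 := by
    rcases Int.isUnit_iff.mp h6 with h | h <;> rw [h] <;> norm_num
  rw [h7, one_mul] at h3
  exact h3

/-- The only roots of unity are `±1`. -/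
lemma torsion_pm (D : QData p K α) (u : (𝓞 K)ˣ) : u = 1 ∨ u = -1 := by
  obtain ⟨a, b, hab⟩ := D.exists_coord (algebraMap (𝓞 K) K (u : 𝓞 K))
  -- trace
  have h1 := coe_trace' (K := K) (u : 𝓞 K)
  rw [hab, D.trace_eq] at h1
  obtain ⟨t, ht⟩ : ∃ t : ℤ, (t : ℚ) = 2 * a := ⟨_, h1⟩
  -- trace of α u
  have h2 := coe_trace' (K := K) (D.al * (u : 𝓞 K))
  have h3 : algebraMap (𝓞 K) K (D.al * (u : 𝓞 K)) =
      algebraMap ℚ K (-(p * b)) + algebraMap ℚ K a * α := by
    rw [map_mul, D.al_coe', hab]
    simp only [map_neg, map_mul, map_natCast]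
    linear_combination (algebraMap ℚ K b) * D.hα
  rw [h3, D.trace_eq] at h2
  obtain ⟨s, hs⟩ : ∃ s : ℤ, (s : ℚ) = 2 * (-(p * b)) := ⟨_, h2⟩
  -- norm
  have h4 := Units.norm K u
  have h5 : Algebra.norm ℚ (algebraMap (𝓞 K) K (u : 𝓞 K)) = a ^ 2 + p * b ^ 2 := by
    rw [hab, D.norm_eq]
  have h6 : |a ^ 2 + p * b ^ 2| = 1 := by
    rw [← h5]
    exact_mod_cast h4
  have hp0 : (0 : ℚ) < p := by exact_mod_cast D.hp.pos
  have h7 : a ^ 2 + p * b ^ 2 = 1 := by
    rwa [abs_of_nonneg (by positivity)] at h6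
  -- p t² + s² = 4 p
  have h8 : (p : ℤ) * t ^ 2 + s ^ 2 = 4 * p := by
    have : (p : ℚ) * t ^ 2 + s ^ 2 = 4 * p := by
      rw [ht, hs]
      linear_combination (4 * p : ℚ) * h7
    exact_mod_cast this
  have h9 : (p : ℤ) ∣ s := by
    have hpp : Prime (p : ℤ) := Nat.prime_iff_prime_int.mp D.hp
    apply hpp.dvd_of_dvd_pow (n := 2)
    exact ⟨4 - t ^ 2, by linear_combination h8⟩
  obtain ⟨r, hr⟩ := h9
  have hp0' : (0 : ℤ) < p := by exact_mod_cast D.hp.pos
  have h10 : t ^ 2 + p * r ^ 2 = 4 := by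
    rw [hr] at h8
    have : (p : ℤ) * (t ^ 2 + p * r ^ 2) = p * 4 := by linear_combination h8
    exact mul_left_cancel₀ hp0'.ne' this
  have h11 : r = 0 := by
    by_contra hr0
    have : 1 ≤ r ^ 2 := by
      have := sq_nonneg r
      have h : r ^ 2 ≠ 0 := pow_ne_zero 2 hr0
      omega
    have hp5 : (4 : ℤ) < p := by
      have := D.hp3
      have := D.h4
      omega
    nlinarith [sq_nonneg t]
  have hb : b = 0 := by
    rw [h11, mul_zero] at hr
    rw [hr] at hs
    have : (p : ℚ) * b = 0 := by push_cast at hs; linarith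
    rcases mul_eq_zero.mp this with h | h
    · exact absurd h hp0.ne'
    · exact h
  have ha : a = 1 ∨ a = -1 := by
    rw [hb] at h7
    have : a ^ 2 = 1 ^ 2 := by linarith
    exact sq_eq_sq_iff_eq_or_eq_neg.mp this
  rw [hb, map_zero, zero_mul, add_zero] at hab
  rcases ha with ha | ha
  · left
    rw [ha, map_one] at hab
    apply Units.ext
    apply ext'
    rw [Units.val_one, map_one]
    exact hab
  · right
    rw [ha, map_neg, map_one] at hab
    apply Units.ext
    apply ext'
    rw [Units.val_neg, Units.val_one, map_neg, map_one]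
    exact hab

lemma torsionOrder_two (D : QData p K α) : Units.torsionOrder K = 2 := by
  classical
  have : Fintype (Units.torsion K) := Fintype.ofFinite _
  rw [Units.torsionOrder, Nat.card_eq_fintype_card]
  have h1 : (-1 : (𝓞 K)ˣ) ∈ Units.torsion K := by
    rw [Units.torsion, CommGroup.mem_torsion, isOfFinOrder_iff_pow_eq_one]
    exact ⟨2, by norm_num, by simp⟩
  rw [← Finset.card_univ, Finset.card_eq_two]
  refine ⟨1, ⟨-1, h1⟩, ?_, ?_⟩
  · intro h
    have h2 := congrArg Subtype.val h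
    have h3 : (1 : (𝓞 K)ˣ) = -1 := h2
    have h4 := congrArg (fun u : (𝓞 K)ˣ => ((u : 𝓞 K) : K)) h3
    simp only [Units.val_one, Units.val_neg] at h4
    have h5 : (1 : K) = -1 := by simpa using h4
    have : (2 : K) = 0 := by linear_combination h5
    exact two_ne_zero this
  · ext x
    simp only [Finset.mem_univ, Finset.mem_insert, Finset.mem_singleton, true_iff]
    rcases D.torsion_pm (x : (𝓞 K)ˣ) with h | h
    · left; exact Subtype.ext h
    · right; exact Subtype.ext h

/-- The residue of the Dedekind zeta function. -/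
lemma residue_eq (D : QData p K α) :
    dedekindZeta_residue K = Real.pi * classNumber K / Real.sqrt p := by
  rw [dedekindZeta_residue_def, D.nrReal, D.nrComplex, D.regulator_one, D.torsionOrder_two,
    D.discr_eq]
  have h : |((-(p : ℤ) : ℤ) : ℝ)| = p := by
    push_cast
    rw [abs_neg, abs_of_nonneg (by positivity)]
  rw [h]
  have : (0 : ℝ) < Real.sqrt p := Real.sqrt_pos.mpr (by exact_mod_cast D.hp.pos)
  push_cast
  field_simp

end QData

end Pool.Agent.MP_4f0cf1_nt
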