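import Pool.Agent.MP_4f0cf1_nt.Gauss

set_option autoImplicit false
open Finset Polynomial

namespace Pool.Agent.MP_4f0cf1_nt

/-! ### Vandermonde determinant of a decreasing sequence -/

lemma vandermonde_sign {m : ℕ} (v : Fin m → ℝ) (hv : StrictAnti v) :
    0 < (-1 : ℝ) ^ (m * (m - 1) / 2) * (Matrix.vandermonde v).det := by
  rw [Matrix.det_vandermonde]
  have h1 : ∀ i : Fin m, ∏ j ∈ Ioi i, (v j - v i) =
      (-1 : ℝ) ^ (m - 1 - (i : ℕ)) * ∏ j ∈ Ioi i, (v i - v j) := by
    intro i
    rw [← Fin.card_Ioi i, ← Finset.prod_const, ← Finset.prod_mul_distrib]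
    apply Finset.prod_congr rfl
    intro j _
    ring
  have h2 : ∑ i : Fin m, (m - 1 - (i : ℕ)) = m * (m - 1) / 2 := by
    rw [Fin.sum_univ_eq_sum_range (fun i => m - 1 - i) m, Finset.sum_range_reflect (fun i => i) m,
      Finset.sum_range_id]
  rw [Finset.prod_congr rfl (fun i _ => h1 i), Finset.prod_mul_distrib, Finset.prod_pow_eq_pow_sum,
    h2, ← mul_assoc, ← mul_pow]
  have h3 : ((-1 : ℝ) * -1) = 1 := by norm_num
  rw [h3, one_pow, one_mul]
  apply Finset.prod_pos
  intro i _
  apply Finset.prod_pos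
  intro j hj
  have := hv (Finset.mem_Ioi.mp hj)
  linarith

/-! ### Monic Chebyshev type polynomials -/

/-- `sp k (2 cos θ) * sin θ = sin ((k+1) θ)`. -/
noncomputable def sp : ℕ → ℝ[X]
  | 0 => 1
  | 1 => X
  | (k + 2) => X * sp (k + 1) - sp k

lemma sp_monic_deg (k : ℕ) : (sp k).Monic ∧ (sp k).natDegree = k := by
  induction k using Nat.strong_induction_on with
  | _ k ih =>
    match k, ih with
    | 0, _ => exact ⟨monic_one, natDegree_one⟩
    | 1, _ => exact ⟨monic_X, natDegree_X⟩
    | (k + 2), ih =>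
      obtain ⟨h1, h2⟩ := ih (k + 1) (by omega)
      obtain ⟨h3, h4⟩ := ih k (by omega)
      have h5 : (X * sp (k + 1)).Monic := monic_X.mul h1
      have h6 : (X * sp (k + 1)).natDegree = k + 2 := by
        rw [monic_X.natDegree_mul h1, natDegree_X, h2]; ring
      have h7 : (sp k).degree < (X * sp (k + 1)).degree := by
        rw [degree_eq_natDegree h3.ne_zero, degree_eq_natDegree h5.ne_zero, h4, h6]
        exact_mod_cast (by omega : k < k + 2)
      have h8 : (sp (k + 2)) = X * sp (k + 1) - sp k := rfl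
      rw [h8]
      refine ⟨h5.sub_of_left h7, ?_⟩
      rw [natDegree_sub_eq_left_of_natDegree_lt, h6]
      rw [h4, h6]; omega

lemma sp_eval (θ : ℝ) (k : ℕ) :
    (sp k).eval (2 * Real.cos θ) * Real.sin θ = Real.sin (((k : ℝ) + 1) * θ) := by
  induction k using Nat.strong_induction_on with
  | _ k ih =>
    match k, ih with
    | 0, _ => simp [sp]
    | 1, _ =>
      have : ((1 : ℕ) : ℝ) + 1 = 2 := by norm_num
      rw [this, Real.sin_two_mul]
      simp [sp]; ring
    | (k + 2), ih =>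
      have h1 := ih (k + 1) (by omega)
      have h2 := ih k (by omega)
      have h8 : (sp (k + 2)) = X * sp (k + 1) - sp k := rfl
      rw [h8, eval_sub, eval_mul, eval_X, sub_mul, h2, mul_assoc, h1]
      push_cast
      have e1 : ((k : ℝ) + 2 + 1) * θ = ((k : ℝ) + 1 + 1) * θ + θ := by ring
      have e2 : ((k : ℝ) + 1) * θ = ((k : ℝ) + 1 + 1) * θ - θ := by ring
      rw [e1, e2, Real.sin_add, Real.sin_sub]
      ring

/-- `dp k (2 cos θ) = 2 cos (k θ)`. -/
noncomputable def dp : ℕ → ℝ[X]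
  | 0 => 2
  | 1 => X
  | (k + 2) => X * dp (k + 1) - dp k

lemma dp_monic_deg (k : ℕ) : (dp (k + 1)).Monic ∧ (dp (k + 1)).natDegree = k + 1 := by
  induction k using Nat.strong_induction_on with
  | _ k ih =>
    match k, ih with
    | 0, _ => exact ⟨monic_X, natDegree_X⟩
    | 1, _ =>
      have h : dp (1 + 1) = X * X - C 2 := by
        simp only [dp]
        rfl
      rw [h]
      have h5 : (X * X : ℝ[X]).Monic := monic_X.mul monic_X
      have h6 : (X * X : ℝ[X]).natDegree = 2 := by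
        rw [monic_X.natDegree_mul monic_X, natDegree_X]
      refine ⟨h5.sub_of_left ?_, ?_⟩
      · rw [degree_eq_natDegree h5.ne_zero, h6]
        exact lt_of_le_of_lt degree_C_le (by norm_num)
      · rw [natDegree_sub_C, h6]
    | (k + 2), ih =>
      obtain ⟨h1, h2⟩ := ih (k + 1) (by omega)
      obtain ⟨h3, h4⟩ := ih k (by omega)
      have h5 : (X * dp (k + 1 + 1)).Monic := monic_X.mul h1
      have h6 : (X * dp (k + 1 + 1)).natDegree = k + 3 := by
        rw [monic_X.natDegree_mul h1, natDegree_X, h2]; ring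
      have h7 : (dp (k + 1)).degree < (X * dp (k + 1 + 1)).degree := by
        rw [degree_eq_natDegree h3.ne_zero, degree_eq_natDegree h5.ne_zero, h4, h6]
        exact_mod_cast (by omega : k + 1 < k + 3)
      have h8 : (dp (k + 2 + 1)) = X * dp (k + 1 + 1) - dp (k + 1) := rfl
      rw [h8]
      refine ⟨h5.sub_of_left h7, ?_⟩
      rw [natDegree_sub_eq_left_of_natDegree_lt, h6]
      rw [h4, h6]; omega

lemma dp_eval (θ : ℝ) (k : ℕ) :
    (dp k).eval (2 * Real.cos θ) = 2 * Real.cos ((k : ℝ) * θ) := by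
  induction k using Nat.strong_induction_on with
  | _ k ih =>
    match k, ih with
    | 0, _ => simp [dp]
    | 1, _ => simp [dp]
    | (k + 2), ih =>
      have h1 := ih (k + 1) (by omega)
      have h2 := ih k (by omega)
      have h8 : (dp (k + 2)) = X * dp (k + 1) - dp k := rfl
      rw [h8, eval_sub, eval_mul, eval_X, h2, h1]
      push_cast
      have e1 : ((k : ℝ) + 2) * θ = ((k : ℝ) + 1) * θ + θ := by ring
      have e2 : (k : ℝ) * θ = ((k : ℝ) + 1) * θ - θ := by ring
      rw [e1, e2, Real.cos_add, Real.cos_sub]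
      ring

/-- `dp` with the constant polynomial normalised to be monic. -/
noncomputable def cp : ℕ → ℝ[X]
  | 0 => 1
  | (k + 1) => dp (k + 1)

lemma cp_monic (k : ℕ) : (cp k).Monic := by
  cases k with
  | zero => exact monic_one
  | succ k => exact (dp_monic_deg k).1

lemma cp_deg (k : ℕ) : (cp k).natDegree = k := by
  cases k with
  | zero => exact natDegree_one
  | succ k => exact (dp_monic_deg k).2

/-! ### The real matrices -/

section
variable {p n : ℕ} [Fact p.Prime]

/-- The angle `2π j / p`. -/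
noncomputable def ang (p : ℕ) (j : ℕ) : ℝ := (j : ℝ) * (2 * Real.pi / p)

noncomputable def Sr (p n : ℕ) : Matrix (Fin n) (Fin n) ℝ :=
  Matrix.of fun j k => 2 * Real.sin (((k : ℕ) + 1 : ℝ) * ang p ((j : ℕ) + 1))

noncomputable def Cr (p n : ℕ) : Matrix (Fin n) (Fin n) ℝ :=
  Matrix.of fun j k => 2 * Real.cos (((k : ℕ) + 1 : ℝ) * ang p ((j : ℕ) + 1))

lemma ee_natCast (a : ℕ) : ee p (a : ZMod p) = Complex.exp ((ang p a : ℂ) * Complex.I) := by
  have h := ZMod.stdAddChar_coe (N := p) (a : ℤ)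
  rw [Int.cast_natCast] at h
  unfold ee
  rw [h]
  congr 1
  unfold ang
  push_cast
  ring

lemma ee_neg_natCast (a : ℕ) : ee p (-(a : ZMod p)) = Complex.exp (-(ang p a : ℂ) * Complex.I) := by
  have h := ZMod.stdAddChar_coe (N := p) (-(a : ℤ))
  rw [Int.cast_neg, Int.cast_natCast] at h
  unfold ee
  rw [h]
  congr 1
  unfold ang
  push_cast
  ring

lemma uu_mul (j k : Fin n) : uu p n j * uu p n k = ((((j : ℕ) + 1) * ((k : ℕ) + 1) : ℕ) : ZMod p) := by
  unfold uu; push_cast; ring

omit [Fact p.Prime] in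
lemma ang_mul (a b : ℕ) : ang p (a * b) = (b : ℝ) * ang p a := by
  unfold ang; push_cast; ring

lemma Sc_eq : Sc p n = Complex.I • (Sr p n).map (fun x : ℝ => (x : ℂ)) := by
  ext j k
  simp only [Sc, Sr, Matrix.of_apply, Matrix.smul_apply, Matrix.map_apply, smul_eq_mul]
  rw [uu_mul, ee_natCast, ee_neg_natCast, ang_mul]
  push_cast
  rw [Complex.sin]
  have := Complex.I_sq
  have h : ∀ z w : ℂ, Complex.I * (2 * ((w - z) * Complex.I / 2)) = z - w := by
    intro z w
    linear_combination (w - z) * this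
  rw [h]

lemma Cc_eq : Cc p n = (Cr p n).map (fun x : ℝ => (x : ℂ)) := by
  ext j k
  simp only [Cc, Cr, Matrix.of_apply, Matrix.map_apply]
  rw [uu_mul, ee_natCast, ee_neg_natCast, ang_mul]
  push_cast
  rw [Complex.cos]
  ring

lemma ang_strictMono : StrictMono (ang p) := by
  have hp := (Fact.out : p.Prime).pos
  intro a b hab
  unfold ang
  have : (0 : ℝ) < 2 * Real.pi / p := by positivity
  have h : (a : ℝ) < b := by exact_mod_cast hab
  exact mul_lt_mul_of_pos_right h this

lemma ang_lt_pi (hpn : p = 2 * n + 1) {a : ℕ} (ha : a ≤ n) : ang p a < Real.pi := by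
  have hp : (0 : ℝ) < p := by exact_mod_cast (Fact.out : p.Prime).pos
  unfold ang
  have h : (2 * a : ℝ) < p := by
    have : 2 * a < p := by omega
    exact_mod_cast this
  have hpi := Real.pi_pos
  rw [mul_div_assoc', div_lt_iff₀ hp]
  nlinarith

omit [Fact p.Prime] in
lemma ang_nonneg (a : ℕ) : 0 ≤ ang p a := by
  unfold ang; positivity

lemma det_Sr_sign (hpn : p = 2 * n + 1) :
    0 < (-1 : ℝ) ^ (n * (n - 1) / 2) * (Sr p n).det := by
  set v : Fin n → ℝ := fun j => 2 * Real.cos (ang p ((j : ℕ) + 1)) with hv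
  have h1 : Sr p n = Matrix.diagonal (fun j : Fin n => 2 * Real.sin (ang p ((j : ℕ) + 1))) *
      Matrix.of (fun i j : Fin n => (sp (j : ℕ)).eval (v i)) := by
    ext j k
    rw [Matrix.diagonal_mul]
    simp only [Sr, Matrix.of_apply, hv]
    have := sp_eval (ang p ((j : ℕ) + 1)) k
    rw [← this]
    ring
  have h2 := Matrix.det_eval_matrixOfPolynomials_eq_det_vandermonde v (fun i : Fin n => sp (i : ℕ))
    (fun i => (sp_monic_deg i).2) (fun i => (sp_monic_deg i).1)
  have h3 : StrictAnti v := by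
    intro i j hij
    simp only [hv]
    have h4 : ang p ((i : ℕ) + 1) < ang p ((j : ℕ) + 1) := ang_strictMono (by
      have : (i : ℕ) < j := hij
      omega)
    have h5 : ang p ((j : ℕ) + 1) < Real.pi := ang_lt_pi hpn j.2
    have h6 := Real.strictAntiOn_cos (Set.mem_Icc.mpr ⟨ang_nonneg _, (h4.trans h5).le⟩)
      (Set.mem_Icc.mpr ⟨ang_nonneg _, h5.le⟩) h4
    linarith
  have h7 := vandermonde_sign v h3
  rw [h1, Matrix.det_mul, Matrix.det_diagonal, ← h2]
  have h8 : 0 < ∏ j : Fin n, 2 * Real.sin (ang p ((j : ℕ) + 1)) := by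
    apply Finset.prod_pos
    intro j _
    have h9 : 0 < ang p ((j : ℕ) + 1) := by
      have := ang_strictMono (p := p) (Nat.succ_pos (j : ℕ))
      have h0 : ang p 0 = 0 := by simp [ang]
      rw [h0] at this
      exact this
    have h10 := Real.sin_pos_of_pos_of_lt_pi h9 (ang_lt_pi hpn j.2)
    linarith
  have h11 := mul_pos h8 h7
  calc (0 : ℝ) < _ := h11
    _ = _ := by ring

lemma det_Cr_sign (hpn : p = 2 * n + 1) :
    0 < (-1 : ℝ) ^ ((n + 1) * n / 2) * (Cr p n).det := by
  have hp0 : (0 : ℝ) < p := by exact_mod_cast (Fact.out : p.Prime).pos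
  set v : Fin (n + 1) → ℝ := fun j => 2 * Real.cos (ang p (j : ℕ)) with hv
  set F : Matrix (Fin (n + 1)) (Fin (n + 1)) ℝ :=
    Matrix.of (fun i j : Fin (n + 1) => (cp (j : ℕ)).eval (v i)) with hF
  have h2 := Matrix.det_eval_matrixOfPolynomials_eq_det_vandermonde v
    (fun i : Fin (n + 1) => cp (i : ℕ)) (fun i => cp_deg i) (fun i => cp_monic i)
  have h3 : StrictAnti v := by
    intro i j hij
    simp only [hv]
    have h4 : ang p (i : ℕ) < ang p (j : ℕ) := ang_strictMono hij
    have h5 : ang p (j : ℕ) < Real.pi := ang_lt_pi hpn (by have := j.2; omega)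
    have h6 := Real.strictAntiOn_cos (Set.mem_Icc.mpr ⟨ang_nonneg _, (h4.trans h5).le⟩)
      (Set.mem_Icc.mpr ⟨ang_nonneg _, h5.le⟩) h4
    linarith
  have h7 := vandermonde_sign v h3
  rw [h2] at h7
  change 0 < (-1 : ℝ) ^ ((n + 1) * (n + 1 - 1) / 2) * F.det at h7
  rw [Nat.add_sub_cancel] at h7
  -- column operations
  have h8 := Matrix.det_updateCol_sum F 0 (fun _ => (1 : ℝ))
  rw [one_smul] at h8
  have h9 : ∀ j : Fin (n + 1), ∑ k, (1 : ℝ) • F j k = if j = 0 then (p : ℝ) else 0 := by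
    intro j
    simp only [one_smul]
    rw [Fin.sum_univ_succ]
    have e1 : F j 0 = 1 := by simp [hF, cp]
    have e2 : ∀ k : Fin n, F j k.succ = 2 * Real.cos (((k : ℕ) + 1 : ℝ) * ang p (j : ℕ)) := by
      intro k
      simp only [hF, Matrix.of_apply, Fin.val_succ, cp, hv]
      rw [dp_eval]
      push_cast
      rfl
    rw [e1, Finset.sum_congr rfl (fun k _ => e2 k)]
    have h10 := half_sum' hpn (fun x : ZMod p => ee p (x * ((j : ℕ) : ZMod p)))
    rw [sum_ee] at h10
    simp only [zero_mul, AddChar.map_zero_eq_one] at h10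
    have h11 : ∀ t : Fin n, ee p (uu p n t * ((j : ℕ) : ZMod p)) +
        ee p (-uu p n t * ((j : ℕ) : ZMod p)) =
        ((2 * Real.cos (((t : ℕ) + 1 : ℝ) * ang p (j : ℕ)) : ℝ) : ℂ) := by
      intro t
      have e3 : uu p n t * ((j : ℕ) : ZMod p) = (((j : ℕ) * ((t : ℕ) + 1) : ℕ) : ZMod p) := by
        unfold uu; push_cast; ring
      rw [neg_mul, e3, ee_natCast, ee_neg_natCast, ang_mul]
      push_cast
      rw [Complex.cos]
      ring
    rw [Finset.sum_congr rfl (fun t _ => h11 t)] at h10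
    have h12 : (((j : ℕ) : ZMod p) = 0) ↔ j = 0 := by
      rw [ZMod.natCast_eq_zero_iff]
      constructor
      · intro h
        have := j.2
        by_contra h0
        have h0' : 0 < (j : ℕ) := by
          rw [Nat.pos_iff_ne_zero]
          intro h00
          exact h0 (Fin.ext h00)
        have := Nat.le_of_dvd h0' h
        omega
      · rintro rfl
        simp
    simp only [h12] at h10
    have h13 : (∑ t : Fin n, (2 * Real.cos (((t : ℕ) + 1 : ℝ) * ang p (j : ℕ)))) =
        (if j = 0 then (p : ℝ) else 0) - 1 := by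
      have : ((∑ t : Fin n, (2 * Real.cos (((t : ℕ) + 1 : ℝ) * ang p (j : ℕ))) : ℝ) : ℂ) =
        (((if j = 0 then (p : ℝ) else 0) - 1 : ℝ) : ℂ) := by
        rw [Complex.ofReal_sum, h10]
        split_ifs <;> push_cast <;> rfl
      exact_mod_cast this
    rw [h13]
    ring
  rw [Matrix.det_succ_column_zero] at h8
  rw [Fin.sum_univ_succ] at h8
  have h14 : ∑ i : Fin n, (-1 : ℝ) ^ ((i.succ : Fin (n + 1)) : ℕ) *
      (F.updateCol 0 fun k => ∑ i, (1 : ℝ) • F k i) i.succ 0 *
      ((F.updateCol 0 fun k => ∑ i, (1 : ℝ) • F k i).submatrix (i.succ.succAbove) Fin.succ).det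
      = 0 := by
    apply Finset.sum_eq_zero
    intro i _
    rw [Matrix.updateCol_self, h9, if_neg (Fin.succ_ne_zero i)]
    ring
  rw [h14, add_zero, Matrix.updateCol_self, h9, if_pos rfl] at h8
  have h15 : (F.updateCol 0 fun k => ∑ i, (1 : ℝ) • F k i).submatrix
      ((0 : Fin (n + 1)).succAbove) Fin.succ = Cr p n := by
    ext j k
    rw [Matrix.submatrix_apply, Matrix.updateCol_ne (Fin.succ_ne_zero k), Fin.succAbove_zero]
    simp only [hF, Matrix.of_apply, Fin.val_succ, cp, hv, Cr]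
    rw [dp_eval]
    push_cast
    rfl
  rw [h15] at h8
  simp only [Fin.val_zero, pow_zero, one_mul] at h8
  rw [← h8] at h7
  have h16 : (-1 : ℝ) ^ ((n + 1) * n / 2) * ((p : ℝ) * (Cr p n).det) =
    p * ((-1 : ℝ) ^ ((n + 1) * n / 2) * (Cr p n).det) := by ring
  rw [h16] at h7
  exact (mul_pos_iff_of_pos_left hp0).mp h7

end

end Pool.Agent.MP_4f0cf1_nt
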