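import Pool.Agent.MP_4f0cf1_nt.PrimeIdeals
import Pool.Agent.MP_4f0cf1_nt.HZ

set_option autoImplicit false
open Finset NumberField Module Filter Topology

namespace Pool.Agent.MP_4f0cf1_nt

section
variable {p : ℕ} [Fact p.Prime] {K : Type*} [Field K] [NumberField K] {α : K}

/-- ideal counting function as an arithmetic function -/
noncomputable def cntA (K : Type*) [Field K] [NumberField K] : ArithmeticFunction ℂ :=
  ⟨fun n => if n = 0 then 0 else (cnt K n : ℂ), by simp⟩

lemma cntA_apply {n : ℕ} (hn : n ≠ 0) : cntA K n = (cnt K n : ℂ) := by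
  change (if n = 0 then (0 : ℂ) else (cnt K n : ℂ)) = _
  rw [if_neg hn]

lemma cntA_mult : (cntA K).IsMultiplicative := by
  constructor
  · rw [cntA_apply one_ne_zero, cnt_one, Nat.cast_one]
  · intro m n h
    by_cases hm : m = 0
    · subst hm; simp
    by_cases hn : n = 0
    · subst hn; simp
    rw [cntA_apply hm, cntA_apply hn, cntA_apply (mul_ne_zero hm hn), cnt_mul hm hn h, Nat.cast_mul]

lemma zetaMul_pow {q : ℕ} (hq : q.Prime) (k : ℕ) :
    DirichletCharacter.zetaMul (chiC p) (q ^ k) = ∑ i ∈ range (k + 1), (chi p (q : ZMod p) : ℂ) ^ i := by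
  have h : DirichletCharacter.zetaMul (chiC p) (q ^ k) =
      ∑ d ∈ (q ^ k).divisors, toArithmeticFunction (fun x => chiC p x) d := by
    unfold DirichletCharacter.zetaMul
    exact ArithmeticFunction.coe_zeta_mul_apply
  rw [h, Nat.sum_divisors_prime_pow hq]
  apply Finset.sum_congr rfl
  intro i _
  change (if q ^ i = 0 then (0 : ℂ) else chiC p ((q ^ i : ℕ) : ZMod p)) = _
  rw [if_neg (pow_ne_zero _ hq.ne_zero), Nat.cast_pow, map_pow, chiC_apply]

lemma cnt_prime_pow (D : QData p K α) {q : ℕ} (hq : q.Prime) (k : ℕ) :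
    (cnt K (q ^ k) : ℤ) = ∑ i ∈ range (k + 1), (chi p (q : ZMod p)) ^ i := by
  obtain ⟨m, hm⟩ := D.quarter
  by_cases hqp : q = p
  · subst hqp
    rw [D.cnt_ram, ZMod.natCast_self, MulChar.map_zero, Finset.sum_range_succ']
    simp
  · have : Fact q.Prime := ⟨hq⟩
    have hne : ((q : ℕ) : ZMod p) ≠ 0 := ZMod.prime_ne_zero p q (fun h => hqp h.symm)
    rcases quadraticChar_dichotomy hne with h | h
    · have h' : chi p (q : ZMod p) = 1 := h
      obtain ⟨r, hr⟩ := (root_iff hqp m hm).mp h'
      obtain ⟨P₁, P₂, hne', h1, h2, h3⟩ := D.split_exists hm hq hqp hr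
      rw [QData.cnt_split hq hne' h1 h2 h3, h']
      simp
    · have h' : chi p (q : ZMod p) = -1 := h
      have hroot : ¬ ∃ r : ℤ, (q : ℤ) ∣ r ^ 2 - r + (m + 1) := by
        intro hr
        rw [← root_iff hqp m hm, h'] at hr
        norm_num at hr
      rw [D.cnt_inert hq (D.inert_max hm hq hroot), h']

lemma cntA_eq (D : QData p K α) : cntA K = DirichletCharacter.zetaMul (chiC p) := by
  rw [ArithmeticFunction.IsMultiplicative.eq_iff_eq_on_prime_powers _ cntA_mult _
    (DirichletCharacter.isMultiplicative_zetaMul _)]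
  intro q k hq
  rw [cntA_apply (pow_ne_zero _ hq.ne_zero), zetaMul_pow hq]
  have h := cnt_prime_pow D hq k
  exact_mod_cast h

lemma dedekind_eq (D : QData p K α) {s : ℂ} (hs : 1 < s.re) :
    dedekindZeta K s = riemannZeta s * DirichletCharacter.LFunction (chiC p) s := by
  have h1 : dedekindZeta K s = LSeries (DirichletCharacter.zetaMul (chiC p)) s := by
    unfold dedekindZeta
    apply LSeries_congr
    intro n hn
    rw [← cntA_eq D, cntA_apply hn]
    rfl
  rw [h1, DirichletCharacter.zetaMul, ← ArithmeticFunction.coe_mul, LSeries_convolution']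
  · rw [DirichletCharacter.LFunction_eq_LSeries _ hs]
    congr 1
    · simp_rw [← ArithmeticFunction.LSeries_zeta_eq_riemannZeta hs, ← ArithmeticFunction.natCoe_apply]
    · exact LSeries_congr (fun hn => (DirichletCharacter.apply_eq_toArithmeticFunction_apply (chiC p) hn).symm) s
  · exact ArithmeticFunction.LSeriesSummable_zeta_iff.mpr hs
  · exact (LSeriesSummable_congr _ fun h ↦ (DirichletCharacter.apply_eq_toArithmeticFunction_apply (chiC p) h).symm).mpr <|
      ZMod.LSeriesSummable_of_one_lt_re (chiC p) hs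

/-- class number formula: `π h / √p = L(1, χ)` -/
lemma L_one (D : QData p K α) :
    ((Real.pi * classNumber K / Real.sqrt p : ℝ) : ℂ) =
      DirichletCharacter.LFunction (chiC p) 1 := by
  have hp2 : p ≠ 2 := by have := D.h4; omega
  have h1 := tendsto_sub_one_mul_dedekindZeta_nhdsGT K
  rw [D.residue_eq] at h1
  have hcont : Tendsto (fun s : ℝ => DirichletCharacter.LFunction (chiC p) (s : ℂ)) (𝓝[>] 1)
      (𝓝 (DirichletCharacter.LFunction (chiC p) 1)) := by
    have h2 := (DirichletCharacter.differentiable_LFunction (chiC_ne_one hp2)).continuous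
    have h3 := (h2.comp Complex.continuous_ofReal).tendsto 1
    simp only [Function.comp_apply, Complex.ofReal_one] at h3
    exact h3.mono_left nhdsWithin_le_nhds
  have hz : Tendsto (fun s : ℝ => ((s : ℂ) - 1) * riemannZeta (s : ℂ)) (𝓝[>] 1) (𝓝 1) := by
    refine riemannZeta_residue_one.comp ?_
    rw [tendsto_nhdsWithin_iff]
    constructor
    · have h3 := Complex.continuous_ofReal.tendsto (1 : ℝ)
      rw [Complex.ofReal_one] at h3
      exact h3.mono_left nhdsWithin_le_nhds
    · filter_upwards [self_mem_nhdsWithin] with s hs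
      rw [Set.mem_compl_iff, Set.mem_singleton_iff]
      intro h
      have : s = 1 := by exact_mod_cast h
      rw [this] at hs
      exact lt_irrefl (1 : ℝ) hs
  have h4 : Tendsto (fun s : ℝ => ((s : ℂ) - 1) * dedekindZeta K s) (𝓝[>] 1)
      (𝓝 (1 * DirichletCharacter.LFunction (chiC p) 1)) := by
    refine (hz.mul hcont).congr' ?_
    filter_upwards [self_mem_nhdsWithin] with s hs
    rw [dedekind_eq D (by simpa using hs)]
    ring
  rw [one_mul] at h4
  exact tendsto_nhds_unique h1 h4

end

end Pool.Agent.MP_4f0cf1_nt
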